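import Mathlib

/-!
# MP_842576_lc: ideal schemes on Polish groups

The notions of the problem: ideal schemes and strongly admissible ideal schemes.
A scheme is a function on all subgroups, but only its values at closed subgroups matter: every
condition below is required for closed subgroups only.
-/

set_option autoImplicit false

namespace Pool.Agent.MP842576

open scoped Pointwise

/-- An ideal scheme on `G`: for every closed subgroup `H`, `I H` is an ideal of subsets of `H`
(closed under taking subsets and finite unions). -/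
structure IsIdealScheme {G : Type} [Group G] [TopologicalSpace G]
    (I : Subgroup G → Set (Set G)) : Prop where
  subset : ∀ H : Subgroup G, IsClosed (H : Set G) → ∀ S ∈ I H, S ⊆ (H : Set G)
  empty : ∀ H : Subgroup G, IsClosed (H : Set G) → ∅ ∈ I H
  mono : ∀ H : Subgroup G, IsClosed (H : Set G) → ∀ S ∈ I H, ∀ T, T ⊆ S → T ∈ I H
  union : ∀ H : Subgroup G, IsClosed (H : Set G) → ∀ S ∈ I H, ∀ T ∈ I H, S ∪ T ∈ I H

/-- The conjugate subgroup `g⁻¹ H g`. -/
def conjInv {G : Type} [Group G] (g : G) (H : Subgroup G) : Subgroup G :=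
  H.map (MulAut.conj g⁻¹).toMonoidHom

/-- Strongly admissible ideal schemes: σ-ideals (`sigma`), invariance under translations by
elements of `H` and under conjugation (`left`, `right`, `conj`), transitivity (`trans`), and the
dichotomy (`dichotomy`). -/
structure StronglyAdmissible {G : Type} [Group G] [TopologicalSpace G]
    (I : Subgroup G → Set (Set G)) : Prop extends IsIdealScheme I where
  sigma : ∀ H : Subgroup G, IsClosed (H : Set G) → ∀ S : ℕ → Set G, (∀ n, S n ∈ I H) →
    ⋃ n, S n ∈ I H
  left : ∀ H : Subgroup G, IsClosed (H : Set G) → ∀ h ∈ H, ∀ S ∈ I H,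
    (fun x => h * x) '' S ∈ I H
  right : ∀ H : Subgroup G, IsClosed (H : Set G) → ∀ h ∈ H, ∀ S ∈ I H,
    (fun x => x * h) '' S ∈ I H
  conj : ∀ H : Subgroup G, IsClosed (H : Set G) → ∀ g : G,
    (fun S : Set G => (fun x => g⁻¹ * x * g) '' S) '' I H = I (conjInv g H)
  trans : ∀ K₁ K₂ K₃ H : Subgroup G, IsClosed (K₁ : Set G) → IsClosed (K₂ : Set G) →
    IsClosed (K₃ : Set G) → IsClosed (H : Set G) → K₃ ≤ K₂ → K₂ ≤ K₁ → H ≤ K₁ →
    ((((H ⊓ K₂ : Subgroup G) : Set G) * (K₃ : Set G) ∉ I K₂ ∧
      (H : Set G) * (K₂ : Set G) ∉ I K₁) ↔ (H : Set G) * (K₃ : Set G) ∉ I K₁)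
  dichotomy : ∀ K H : Subgroup G, IsClosed (K : Set G) → IsClosed (H : Set G) → K ≤ H →
    ((K : Set G) ∈ I H ↔ Uncountable (H ⧸ K.subgroupOf H))

end Pool.Agent.MP842576
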