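import Mathlib
import Pool.Agent.Lib.MP_842576_h7.Notions

set_option autoImplicit false

namespace Pool.Agent.MP842576

open scoped Pointwise

/-! ### Null sets of closed subgroups -/

/-- `S ∩ H` is a null set for a Haar measure of `H`. -/
def Nul {Γ : Type} [Group Γ] [TopologicalSpace Γ] [MeasurableSpace Γ]
    (H : Subgroup Γ) (S : Set Γ) : Prop :=
  ∃ μ : MeasureTheory.Measure H, μ.IsHaarMeasure ∧ μ ((↑) ⁻¹' S : Set H) = 0

/-! ### The group `GG p` -/

/-- The alphabet at place `i`. -/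
abbrev Al (p i : ℕ) : Type := Fin (i + 1) → ZMod p

/-- Sequences. -/
abbrev Sq (p : ℕ) : Type := ∀ i : ℕ, Al p i

/-- `g` adds to the letter at place `i` something that only depends on the letters before. -/
def IsTri {p : ℕ} (g : Sq p → Sq p) : Prop :=
  ∀ (i : ℕ) (w w' : Sq p), (∀ j < i, w j = w' j) → g w i - w i = g w' i - w' i

theorem IsTri.agree {p : ℕ} {g : Sq p → Sq p} (hg : IsTri g) {n : ℕ} {w w' : Sq p}
    (h : ∀ j < n, w j = w' j) : ∀ j < n, g w j = g w' j := by
  intro j hj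
  have h1 := hg j w w' (fun k hk => h k (lt_trans hk hj))
  have h2 := h j hj
  rw [h2] at h1
  exact sub_left_injective h1

theorem IsTri.comp {p : ℕ} {g h : Sq p → Sq p} (hg : IsTri g) (hh : IsTri h) :
    IsTri (g ∘ h) := by
  intro i w w' hw
  have h1 := hg i (h w) (h w') (hh.agree hw)
  have h2 := hh i w w' hw
  have h3 : (g ∘ h) w i - w i = (g (h w) i - h w i) + (h w i - w i) := by
    simp
  have h4 : (g ∘ h) w' i - w' i = (g (h w') i - h w' i) + (h w' i - w' i) := by
    simp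
  rw [h3, h4, h1, h2]

theorem IsTri.agree_of {p : ℕ} {g : Sq p → Sq p} (hg : IsTri g) {n : ℕ} {w w' : Sq p}
    (h : ∀ j < n, g w j = g w' j) : ∀ j < n, w j = w' j := by
  intro j
  induction j using Nat.strong_induction_on with
  | _ j ih =>
    intro hj
    have h1 := hg j w w' (fun k hk => ih k hk (lt_trans hk hj))
    rw [h j hj] at h1
    exact sub_right_injective h1

theorem IsTri.symm {p : ℕ} {g : Equiv.Perm (Sq p)} (hg : IsTri g) :
    IsTri (g.symm : Sq p → Sq p) := by
  intro i w w' hw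
  have h1 : ∀ j < i, g.symm w j = g.symm w' j := by
    apply hg.agree_of
    intro j hj
    rw [Equiv.apply_symm_apply, Equiv.apply_symm_apply]
    exact hw j hj
  have h2 := hg i _ _ h1
  rw [Equiv.apply_symm_apply, Equiv.apply_symm_apply] at h2
  rw [← neg_sub, h2, neg_sub]

/-- Triangular permutations that eventually preserve the letters at even places. -/
def GG (p : ℕ) : Subgroup (Equiv.Perm (Sq p)) where
  carrier := {g | IsTri g ∧ ∃ n : ℕ, ∀ i, n ≤ i → Even i → ∀ w, g w i = w i}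
  one_mem' := ⟨fun i w w' _ => by simp, 0, fun i _ _ w => rfl⟩
  mul_mem' := by
    rintro g h ⟨hg, n, hn⟩ ⟨hh, m, hm⟩
    refine ⟨hg.comp hh, max n m, fun i hi he w => ?_⟩
    rw [Equiv.Perm.mul_apply, hn i (le_trans (le_max_left _ _) hi) he,
      hm i (le_trans (le_max_right _ _) hi) he]
  inv_mem' := by
    rintro g ⟨hg, n, hn⟩
    refine ⟨hg.symm, n, fun i hi he w => ?_⟩
    have := hn i hi he (g⁻¹ w)
    rw [← this, ← Equiv.Perm.mul_apply, mul_inv_cancel, Equiv.Perm.one_apply]

/-- The basic neighbourhoods of one: elements that do not change the letters at places `< N` and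
at even places. -/
def VV (p N : ℕ) : Subgroup (GG p) where
  carrier := {g | ∀ i, (i < N ∨ Even i) → ∀ w, g.1 w i = w i}
  one_mem' := fun i _ w => rfl
  mul_mem' := by
    intro g h hg hh i hi w
    have : (g * h).1 w = g.1 (h.1 w) := rfl
    rw [this, hg i hi, hh i hi]
  inv_mem' := by
    intro g hg i hi w
    have h1 : (g⁻¹).1 w = g.1.symm w := rfl
    have := hg i hi (g.1.symm w)
    rw [Equiv.apply_symm_apply] at this
    rw [h1, this]

theorem VV_anti {p m n : ℕ} (h : m ≤ n) : VV p n ≤ VV p m := by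
  intro g hg i hi w
  exact hg i (hi.imp (fun h' => lt_of_lt_of_le h' h) id) w

/-- Conjugation respects the neighbourhoods. -/
theorem VV_conj {p : ℕ} (g : GG p) (N : ℕ) : ∃ M, ∀ v ∈ VV p M, g * v * g⁻¹ ∈ VV p N := by
  obtain ⟨hg, n, hn⟩ := g.2
  refine ⟨max n N, fun v hv i hi w => ?_⟩
  have h1 : (g * v * g⁻¹).1 w = g.1 (v.1 (g.1.symm w)) := rfl
  rw [h1]
  by_cases hin : i < max n N
  · have h2 : ∀ j < max n N, v.1 (g.1.symm w) j = g.1.symm w j := fun j hj => hv j (Or.inl hj) _
    have h3 := hg.agree h2 i hin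
    rw [Equiv.apply_symm_apply] at h3
    exact h3
  · push Not at hin
    have he : Even i := by
      rcases hi with h | h
      · exact absurd (lt_of_lt_of_le h (le_max_right n N)) (not_lt.mpr hin)
      · exact h
    have hni : n ≤ i := le_trans (le_max_left _ _) hin
    rw [hn i hni he, hv i (Or.inr he)]
    have := hn i hni he (g.1.symm w)
    rw [Equiv.apply_symm_apply] at this
    exact this.symm

/-- The filter basis of the topology of `GG p`. -/
def ggBasis (p : ℕ) : GroupFilterBasis (GG p) where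
  sets := Set.range fun N => (VV p N : Set (GG p))
  nonempty := ⟨_, 0, rfl⟩
  inter_sets := by
    rintro _ _ ⟨m, rfl⟩ ⟨n, rfl⟩
    exact ⟨_, ⟨max m n, rfl⟩, Set.subset_inter (VV_anti (le_max_left _ _))
      (VV_anti (le_max_right _ _))⟩
  one' := by
    rintro _ ⟨n, rfl⟩
    exact (VV p n).one_mem
  mul' := by
    rintro _ ⟨n, rfl⟩
    refine ⟨_, ⟨n, rfl⟩, ?_⟩
    rintro _ ⟨a, ha, b, hb, rfl⟩
    exact (VV p n).mul_mem ha hb
  inv' := by
    rintro _ ⟨n, rfl⟩
    exact ⟨_, ⟨n, rfl⟩, fun a ha => (VV p n).inv_mem ha⟩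
  conj' := by
    rintro g _ ⟨n, rfl⟩
    obtain ⟨M, hM⟩ := VV_conj g n
    exact ⟨_, ⟨M, rfl⟩, fun v hv => hM v hv⟩

instance (p : ℕ) : TopologicalSpace (GG p) := (ggBasis p).topology

instance (p : ℕ) : IsTopologicalGroup (GG p) := (ggBasis p).isTopologicalGroup

theorem nhds_one_hasBasis (p : ℕ) :
    (nhds (1 : GG p)).HasBasis (fun _ : ℕ => True) fun N => (VV p N : Set (GG p)) := by
  have h := (ggBasis p).nhds_one_hasBasis
  refine ⟨fun t => ?_⟩
  rw [h.mem_iff]
  constructor
  · rintro ⟨_, ⟨N, rfl⟩, hN⟩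
    exact ⟨N, trivial, hN⟩
  · rintro ⟨N, -, hN⟩
    exact ⟨_, ⟨N, rfl⟩, hN⟩

end Pool.Agent.MP842576
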