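import Mathlib
import Pool.Agent.Lib.MP_842576_h7.Defs

/-!
# MP_842576_lc: null sets of closed subgroups, basics
-/

set_option autoImplicit false
set_option linter.unusedSectionVars false
set_option linter.unusedVariables false

open MeasureTheory

namespace Pool.Agent.MP842576

open scoped Pointwise

section Haar

variable {Γ : Type} [Group Γ] [TopologicalSpace Γ] [IsTopologicalGroup Γ] [T2Space Γ]
  [LocallyCompactSpace Γ] [SecondCountableTopology Γ] [MeasurableSpace Γ] [BorelSpace Γ]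

theorem haar1_locallyCompactSpace {H : Subgroup Γ} (hH : IsClosed (H : Set Γ)) :
    LocallyCompactSpace H :=
  hH.isClosedEmbedding_subtypeVal.locallyCompactSpace

theorem haar1_secondCountable (H : Subgroup Γ) : SecondCountableTopology H :=
  Topology.IsInducing.subtypeVal.secondCountableTopology

/-- For closed subgroups, `Nul` can be tested with any Haar measure. -/
theorem nul_iff_haar {H : Subgroup Γ} (hH : IsClosed (H : Set Γ)) (μ : Measure H)
    [μ.IsHaarMeasure] {S : Set Γ} : Nul H S ↔ μ ((↑) ⁻¹' S : Set H) = 0 := by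
  have := haar1_locallyCompactSpace hH
  have := haar1_secondCountable H
  constructor
  · rintro ⟨ν, hν, h0⟩
    have := hν
    exact (Measure.absolutelyContinuous_isHaarMeasure μ ν) h0
  · intro h
    exact ⟨μ, inferInstance, h⟩

/-- Existence of a Haar measure on a closed subgroup. -/
theorem haar1_exists {H : Subgroup Γ} (hH : IsClosed (H : Set Γ)) :
    ∃ μ : Measure H, μ.IsHaarMeasure := by
  have := haar1_locallyCompactSpace hH
  have := haar1_secondCountable H
  exact ⟨Measure.haar, inferInstance⟩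

theorem Nul.mono {H : Subgroup Γ} {S T : Set Γ} (hT : Nul H T) (h : S ∩ (H : Set Γ) ⊆ T) :
    Nul H S := by
  obtain ⟨μ, hμ, h0⟩ := hT
  refine ⟨μ, hμ, measure_mono_null ?_ h0⟩
  intro x hx
  exact h ⟨hx, x.2⟩

theorem Nul.iUnion {H : Subgroup Γ} (hH : IsClosed (H : Set Γ)) {S : ℕ → Set Γ}
    (h : ∀ i, Nul H (S i)) : Nul H (⋃ i, S i) := by
  obtain ⟨μ, hμ⟩ := haar1_exists hH
  rw [nul_iff_haar hH μ, Set.preimage_iUnion]
  exact measure_iUnion_null fun i => (nul_iff_haar hH μ).1 (h i)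

theorem not_nul_self {H : Subgroup Γ} : ¬ Nul H (H : Set Γ) := by
  rintro ⟨μ, hμ, h0⟩
  have h1 : ((↑) ⁻¹' (H : Set Γ) : Set H) = Set.univ := by
    ext x
    simp
  rw [h1] at h0
  exact isOpen_univ.measure_ne_zero μ ⟨1, trivial⟩ h0

theorem nul_empty {H : Subgroup Γ} (hH : IsClosed (H : Set Γ)) : Nul H (∅ : Set Γ) := by
  obtain ⟨μ, hμ⟩ := haar1_exists hH
  exact ⟨μ, hμ, by simp⟩

theorem nul_mul_left_iff {H : Subgroup Γ} (hH : IsClosed (H : Set Γ)) {g : Γ} (hg : g ∈ H)
    {S : Set Γ} : Nul H ((fun x => g * x) '' S) ↔ Nul H S := by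
  obtain ⟨μ, hμ⟩ := haar1_exists hH
  rw [nul_iff_haar hH μ, nul_iff_haar hH μ]
  have h1 : ((↑) ⁻¹' ((fun x => g * x) '' S) : Set H) =
      (fun x : H => (⟨g, hg⟩ : H)⁻¹ * x) ⁻¹' ((↑) ⁻¹' S : Set H) := by
    ext x
    simp only [Set.mem_preimage, Set.mem_image, Subgroup.coe_mul, InvMemClass.coe_inv]
    constructor
    · rintro ⟨y, hy, hyx⟩
      rw [← hyx, inv_mul_cancel_left]
      exact hy
    · intro h
      exact ⟨_, h, by rw [mul_inv_cancel_left]⟩
  rw [h1, measure_preimage_mul]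

theorem nul_mul_right_iff {H : Subgroup Γ} (hH : IsClosed (H : Set Γ)) {g : Γ} (hg : g ∈ H)
    {S : Set Γ} : Nul H ((fun x => x * g) '' S) ↔ Nul H S := by
  obtain ⟨μ, hμ⟩ := haar1_exists hH
  have := haar1_locallyCompactSpace hH
  have := haar1_secondCountable H
  rw [nul_iff_haar hH μ, nul_iff_haar hH μ]
  have h1 : ((↑) ⁻¹' ((fun x => x * g) '' S) : Set H) =
      (fun x : H => x * (⟨g, hg⟩ : H)⁻¹) ⁻¹' ((↑) ⁻¹' S : Set H) := by
    ext x
    simp only [Set.mem_preimage, Set.mem_image, Subgroup.coe_mul, InvMemClass.coe_inv]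
    constructor
    · rintro ⟨y, hy, hyx⟩
      rw [← hyx, mul_inv_cancel_right]
      exact hy
    · intro h
      exact ⟨_, h, by rw [inv_mul_cancel_right]⟩
  rw [h1, measure_mul_right_null]

theorem haar1_conj_aux {H : Subgroup Γ} (g : Γ) {S : Set Γ} (h : Nul H S) :
    Nul (conjInv g H) ((fun x => g⁻¹ * x * g) '' S) := by
  obtain ⟨μ, hμ, h0⟩ := h
  let e : H ≃* conjInv g H := (MulAut.conj g⁻¹).subgroupMap H
  have he1 : ∀ x : H, ((e x : conjInv g H) : Γ) = g⁻¹ * x * g := by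
    intro x
    change (MulAut.conj g⁻¹) (x : Γ) = _
    rw [MulAut.conj_apply, inv_inv]
  have he2 : ∀ y : conjInv g H, ((e.symm y : H) : Γ) = g * y * g⁻¹ := by
    intro y
    have h1 := he1 (e.symm y)
    rw [MulEquiv.apply_symm_apply] at h1
    rw [h1]
    group
  have hc : Continuous e := by
    rw [continuous_induced_rng]
    have : ((↑) : conjInv g H → Γ) ∘ e = fun x : H => g⁻¹ * (x : Γ) * g := by
      funext x
      exact he1 x
    rw [this]
    fun_prop
  have hcs : Continuous e.symm := by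
    rw [continuous_induced_rng]
    have : ((↑) : H → Γ) ∘ e.symm = fun y : conjInv g H => g * (y : Γ) * g⁻¹ := by
      funext y
      exact he2 y
    rw [this]
    fun_prop
  refine ⟨μ.map e, e.isHaarMeasure_map μ hc hcs, ?_⟩
  let E : H ≃ᵐ conjInv g H := (Homeomorph.mk e.toEquiv hc hcs).toMeasurableEquiv
  have hE : (μ.map e) = μ.map E := rfl
  rw [hE, E.map_apply]
  refine measure_mono_null ?_ h0
  rintro x ⟨y, hy, hyx⟩
  have h2 : ((E x : conjInv g H) : Γ) = g⁻¹ * x * g := he1 x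
  have h3 : g⁻¹ * y * g = g⁻¹ * (x : Γ) * g := hyx.trans h2
  have h4 : y = x := by
    have := mul_right_cancel h3
    exact mul_left_cancel this
  rw [h4] at hy
  exact hy

theorem nul_conj_iff {H : Subgroup Γ} (hH : IsClosed (H : Set Γ)) (g : Γ) {S : Set Γ} :
    Nul (conjInv g H) ((fun x => g⁻¹ * x * g) '' S) ↔ Nul H S := by
  refine ⟨fun h => ?_, haar1_conj_aux g⟩
  have h1 := haar1_conj_aux g⁻¹ h
  have h2 : conjInv g⁻¹ (conjInv g H) = H := by
    ext x
    simp only [conjInv, Subgroup.mem_map, MulEquiv.coe_toMonoidHom, MulAut.conj_apply]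
    constructor
    · rintro ⟨y, ⟨z, hz, rfl⟩, rfl⟩
      have : g⁻¹⁻¹ * (g⁻¹ * z * g⁻¹⁻¹) * g⁻¹⁻¹⁻¹ = z := by group
      rw [this]
      exact hz
    · intro hx
      exact ⟨g⁻¹ * x * g⁻¹⁻¹, ⟨x, hx, rfl⟩, by group⟩
  have h3 : (fun x => g⁻¹⁻¹ * x * g⁻¹) '' ((fun x => g⁻¹ * x * g) '' S) = S := by
    rw [Set.image_image]
    have : (fun x => g⁻¹⁻¹ * (g⁻¹ * x * g) * g⁻¹) = (id : Γ → Γ) := by
      funext x
      simp only [id]
      group
    rw [this, Set.image_id]
  rw [h2, h3] at h1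
  exact h1

end Haar

end Pool.Agent.MP842576
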