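import Mathlib

set_option autoImplicit false

namespace Pool.Agent.MP842576

open scoped Pointwise

/-- the component of a subgroup of a product -/
def comp {Γ : ℕ → Type} [∀ n, Group (Γ n)] (H : Subgroup (∀ n, Γ n)) (n : ℕ) : Subgroup (Γ n) :=
  H.comap (MonoidHom.mulSingle Γ n)

theorem mem_comp {Γ : ℕ → Type} [∀ n, Group (Γ n)] {H : Subgroup (∀ n, Γ n)} {n : ℕ} {x : Γ n} :
    x ∈ comp H n ↔ Pi.mulSingle n x ∈ H := Iff.rfl

theorem comp_closed {Γ : ℕ → Type} [∀ n, Group (Γ n)] [∀ n, TopologicalSpace (Γ n)]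
    {H : Subgroup (∀ n, Γ n)} (hH : IsClosed (H : Set (∀ n, Γ n))) (n : ℕ) :
    IsClosed (comp H n : Set (Γ n)) :=
  hH.preimage (continuous_mulSingle n)

theorem comp_mono {Γ : ℕ → Type} [∀ n, Group (Γ n)] {H K : Subgroup (∀ n, Γ n)} (h : H ≤ K)
    (n : ℕ) : comp H n ≤ comp K n := fun _ hx => h hx

theorem comp_inf {Γ : ℕ → Type} [∀ n, Group (Γ n)] (H K : Subgroup (∀ n, Γ n)) (n : ℕ) :
    comp (H ⊓ K) n = comp H n ⊓ comp K n := rfl

/-- a closed subgroup contains every sequence whose components lie in its components -/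
theorem mem_of_forall_comp {Γ : ℕ → Type} [∀ n, Group (Γ n)] [∀ n, TopologicalSpace (Γ n)]
    {H : Subgroup (∀ n, Γ n)} (hH : IsClosed (H : Set (∀ n, Γ n))) {h : ∀ n, Γ n}
    (hh : ∀ n, h n ∈ comp H n) : h ∈ H := by
  have key : ∀ I : Finset ℕ, (fun i => if i ∈ I then h i else 1) ∈ H := by
    intro I
    induction I using Finset.induction_on with
    | empty =>
      have h0 : (fun i => if i ∈ (∅ : Finset ℕ) then h i else 1) = (1 : ∀ n, Γ n) := by
        funext i
        simp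
      rw [h0]
      exact H.one_mem
    | insert a I ha ih =>
      have h1 : (fun i => if i ∈ insert a I then h i else 1) =
          (Pi.mulSingle a (h a) : ∀ n, Γ n) * (fun i => if i ∈ I then h i else 1) := by
        funext i
        rw [Pi.mul_apply]
        by_cases hia : i = a
        · subst hia
          rw [Pi.mulSingle_eq_same]
          simp [ha]
        · rw [Pi.mulSingle_eq_of_ne hia, one_mul]
          simp [hia]
      rw [h1]
      exact H.mul_mem (hh a) ih
  have hcl : h ∈ closure (H : Set (∀ n, Γ n)) := by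
    rw [mem_closure_iff_nhds]
    intro t ht
    rw [nhds_pi, Filter.mem_pi'] at ht
    obtain ⟨I, s, hs, hst⟩ := ht
    refine ⟨_, hst ?_, key I⟩
    intro i hi
    have : i ∈ I := hi
    show (if i ∈ I then h i else 1) ∈ s i
    rw [if_pos this]
    exact mem_of_mem_nhds (hs i)
  rwa [hH.closure_eq] at hcl

/-- if the components are groups with coprime torsion, then a closed subgroup contains the
components of its elements -/
theorem comp_mem {Γ : ℕ → Type} [∀ n, Group (Γ n)] [∀ n, TopologicalSpace (Γ n)]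
    [∀ n, IsTopologicalGroup (Γ n)] (P : ℕ → ℕ) (hP : ∀ n, (P n).Prime)
    (hinj : Function.Injective P)
    (hpow : ∀ n (x : Γ n), ∀ U ∈ nhds (1 : Γ n), ∃ k : ℕ, ∀ a : ℤ, (x ^ (P n ^ k)) ^ a ∈ U)
    {H : Subgroup (∀ n, Γ n)} (hH : IsClosed (H : Set (∀ n, Γ n))) {h : ∀ n, Γ n} (hh : h ∈ H)
    (n : ℕ) : h n ∈ comp H n := by
  rw [mem_comp]
  have hcl : (Pi.mulSingle n (h n) : ∀ n, Γ n) ∈ closure (H : Set (∀ n, Γ n)) := by
    rw [mem_closure_iff_nhds]
    intro t ht
    rw [nhds_pi, Filter.mem_pi'] at ht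
    obtain ⟨I, s, hs, hst⟩ := ht
    have h1 : ∀ i, i ≠ n → ∃ k : ℕ, ∀ a : ℤ, ((h i) ^ (P i ^ k)) ^ a ∈ s i := by
      intro i hi
      apply hpow
      have := hs i
      rwa [Pi.mulSingle_eq_of_ne hi] at this
    have h2 : ∃ k : ℕ, ∀ a : ℤ, h n * ((h n) ^ (P n ^ k)) ^ a ∈ s n := by
      have h3 := hs n
      rw [Pi.mulSingle_eq_same] at h3
      have h4 : (fun y => h n * y) ⁻¹' (s n) ∈ nhds (1 : Γ n) := by
        apply (continuous_const.mul continuous_id).continuousAt.preimage_mem_nhds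
        simpa using h3
      exact hpow n (h n) _ h4
    choose! k hk using h1
    obtain ⟨k₀, hk₀⟩ := h2
    set Q : ℕ := ∏ i ∈ I.erase n, P i ^ k i with hQ
    have hcop : Nat.Coprime Q (P n ^ k₀) := by
      rw [hQ]
      apply Nat.Coprime.prod_left
      intro i hi
      apply Nat.Coprime.pow
      rw [Nat.coprime_primes (hP i) (hP n)]
      exact fun he => (Finset.ne_of_mem_erase hi) (hinj he)
    have hbez : (Q : ℤ) * Nat.gcdA Q (P n ^ k₀) + ((P n ^ k₀ : ℕ) : ℤ) * Nat.gcdB Q (P n ^ k₀) = 1 := by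
      rw [← Nat.gcd_eq_gcd_ab, hcop]
      rfl
    set a := Nat.gcdA Q (P n ^ k₀)
    set b := Nat.gcdB Q (P n ^ k₀)
    refine ⟨h ^ ((Q : ℤ) * a), hst ?_, H.zpow_mem hh _⟩
    intro i hi
    have hi' : i ∈ I := hi
    rw [Pi.pow_apply]
    by_cases hin : i = n
    · subst hin
      have h5 : (Q : ℤ) * a = 1 + ((P i ^ k₀ : ℕ) : ℤ) * (-b) := by linarith
      rw [h5, zpow_add, zpow_one, zpow_mul, zpow_natCast]
      exact hk₀ _
    · have h6 : P i ^ k i ∣ Q := Finset.dvd_prod_of_mem _ (Finset.mem_erase.mpr ⟨hin, hi'⟩)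
      obtain ⟨c, hc⟩ := h6
      rw [hc, Nat.cast_mul, mul_assoc, zpow_mul, zpow_natCast]
      exact hk i hin _
  rwa [hH.closure_eq] at hcl

end Pool.Agent.MP842576
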