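import Mathlib
import Pool.Agent.Lib.MP_842576_h7.Defs
import Pool.Agent.Lib.MP_842576_h7.ProdSub
import Pool.Agent.Lib.MP_842576_h7.Haar1

set_option autoImplicit false

namespace Pool.Agent.MP842576

open scoped Pointwise

section Box

variable {Γ : ℕ → Type} [∀ n, Group (Γ n)] [∀ n, TopologicalSpace (Γ n)]
  [∀ n, MeasurableSpace (Γ n)]

/-- small boxes -/
def Small (H : Subgroup (∀ n, Γ n)) (X : ∀ n, Set (Γ n)) : Prop :=
  (∃ n, Nul (comp H n) (X n)) ∨ {n | ¬ Nul (comp H n) (X n)ᶜ}.Infinite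

/-- the ideal scheme: the σ-ideal generated by the small boxes -/
def II (H : Subgroup (∀ n, Γ n)) : Set (Set (∀ n, Γ n)) :=
  {S | S ⊆ (H : Set (∀ n, Γ n)) ∧ ∃ X : ℕ → ∀ n, Set (Γ n), (∀ j, Small H (X j)) ∧
    S ⊆ ⋃ j, Set.pi Set.univ (X j)}

theorem II_sub {H : Subgroup (∀ n, Γ n)} {S : Set (∀ n, Γ n)} (h : S ∈ II H) :
    S ⊆ (H : Set (∀ n, Γ n)) := h.1

theorem II_mono {H : Subgroup (∀ n, Γ n)} {S T : Set (∀ n, Γ n)} (h : S ∈ II H) (hT : T ⊆ S) :
    T ∈ II H :=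
  ⟨hT.trans h.1, h.2.imp fun _ hX => ⟨hX.1, hT.trans hX.2⟩⟩

theorem II_iUnion {H : Subgroup (∀ n, Γ n)} {S : ℕ → Set (∀ n, Γ n)} (h : ∀ n, S n ∈ II H) :
    ⋃ n, S n ∈ II H := by
  refine ⟨Set.iUnion_subset fun n => (h n).1, ?_⟩
  choose X hX hS using fun n => (h n).2
  refine ⟨fun k => X (Nat.unpair k).1 (Nat.unpair k).2, fun k => hX _ _, ?_⟩
  refine Set.iUnion_subset fun n => (hS n).trans (Set.iUnion_subset fun j => ?_)
  refine Set.subset_iUnion_of_subset (Nat.pair n j) ?_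
  show Set.univ.pi (X n j) ⊆
    Set.univ.pi (X (Nat.unpair (Nat.pair n j)).1 (Nat.unpair (Nat.pair n j)).2)
  rw [Nat.unpair_pair]

theorem II_of_small {H : Subgroup (∀ n, Γ n)} {X : ∀ n, Set (Γ n)} (h : Small H X) :
    Set.pi Set.univ X ∩ (H : Set (∀ n, Γ n)) ∈ II H :=
  ⟨Set.inter_subset_right, fun _ => X, fun _ => h,
    Set.inter_subset_left.trans (Set.subset_iUnion (fun _ : ℕ => Set.pi Set.univ X) 0)⟩

variable [∀ n, IsTopologicalGroup (Γ n)] [∀ n, T2Space (Γ n)]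
  [∀ n, LocallyCompactSpace (Γ n)] [∀ n, SecondCountableTopology (Γ n)] [∀ n, BorelSpace (Γ n)]

/-- a box that is not small is not covered by countably many small boxes -/
theorem exists_avoid {H : Subgroup (∀ n, Γ n)} (hH : IsClosed (H : Set (∀ n, Γ n)))
    {X : ∀ n, Set (Γ n)} (hX : ¬ Small H X) {Y : ℕ → ∀ n, Set (Γ n)} (hY : ∀ j, Small H (Y j)) :
    ∃ x : ∀ n, Γ n, (∀ n, x n ∈ X n ∧ x n ∈ comp H n) ∧ ∀ j, x ∉ Set.pi Set.univ (Y j) := by
  classical
  have hcl := fun n => comp_closed hH n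
  have hX1 : ∀ n, ¬ Nul (comp H n) (X n) := fun n h => hX (Or.inl ⟨n, h⟩)
  have hX2 : {n | ¬ Nul (comp H n) (X n)ᶜ}.Finite := by
    by_contra h
    exact hX (Or.inr h)
  -- indices for the boxes of the first type
  let T1 : ℕ → Prop := fun j => ∃ n, Nul (comp H n) (Y j n)
  have hn1 : ∀ j, ∃ n, T1 j → Nul (comp H n) (Y j n) := by
    intro j
    by_cases h : T1 j
    · obtain ⟨n, hn⟩ := h
      exact ⟨n, fun _ => hn⟩
    · exact ⟨0, fun h' => absurd h' h⟩
  choose n1 hn1 using hn1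
  -- indices for the boxes of the second type
  have hfreq : ∀ j, ∃ᶠ k in Filter.atTop, (¬ T1 j → ¬ Nul (comp H k) (Y j k)ᶜ) ∧
      Nul (comp H k) (X k)ᶜ := by
    intro j
    have hfin : ∀ᶠ k in Filter.atTop, Nul (comp H k) (X k)ᶜ := by
      have h3 := hX2.eventually_cofinite_notMem
      rw [Nat.cofinite_eq_atTop] at h3
      filter_upwards [h3] with k hk
      by_contra h
      exact hk h
    by_cases h : T1 j
    · apply Filter.Eventually.frequently
      filter_upwards [hfin] with k hk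
      exact ⟨fun h' => absurd h h', hk⟩
    · have h4 : {n | ¬ Nul (comp H n) (Y j n)ᶜ}.Infinite := (hY j).resolve_left h
      have h5 := (Nat.frequently_atTop_iff_infinite.mpr h4).and_eventually hfin
      exact h5.mono fun k hk => ⟨fun _ => hk.1, hk.2⟩
  obtain ⟨c, hc, hcP⟩ := Filter.extraction_forall_of_frequently hfreq
  -- the null sets to be avoided
  let Z : ∀ n, Set (Γ n) := fun n => ⋃ j, if T1 j ∧ n1 j = n then Y j n else ∅
  have hZ : ∀ n, Nul (comp H n) (Z n) := by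
    intro n
    apply Nul.iUnion (hcl n)
    intro j
    split_ifs with h
    · obtain ⟨h1, rfl⟩ := h
      exact hn1 j h1
    · exact nul_empty (hcl n)
  have hex : ∀ n, ∃ y : Γ n, (y ∈ X n ∧ y ∈ comp H n) ∧ y ∉ Z n ∧
      ∀ j, c j = n → ¬ T1 j → y ∉ Y j n := by
    intro n
    by_contra hcon
    push Not at hcon
    by_cases h : ∃ j, c j = n ∧ ¬ T1 j
    · obtain ⟨j, rfl, hj⟩ := h
      apply (hcP j).1 hj
      have h6 : Nul (comp H (c j)) (⋃ i : ℕ, if i = 0 then (X (c j))ᶜ else Z (c j)) := by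
        apply Nul.iUnion (hcl _)
        intro i
        split_ifs
        · exact (hcP j).2
        · exact hZ _
      apply h6.mono
      rintro y ⟨hy, hyH⟩
      by_cases hyX : y ∈ X (c j)
      · by_cases hyZ : y ∈ Z (c j)
        · exact Set.mem_iUnion.mpr ⟨1, by simpa using hyZ⟩
        · obtain ⟨i, hi, hi1, hi2⟩ := hcon y ⟨hyX, hyH⟩ hyZ
          have : i = j := hc.injective hi
          subst this
          exact absurd hi2 hy
      · exact Set.mem_iUnion.mpr ⟨0, by simpa using hyX⟩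
    · apply hX1 n
      apply (hZ n).mono
      rintro y ⟨hy, hyH⟩
      by_contra hyZ
      obtain ⟨i, hi, hi1, hi2⟩ := hcon y ⟨hy, hyH⟩ hyZ
      exact h ⟨i, hi, hi1⟩
  choose x hx hxZ hxY using hex
  refine ⟨x, hx, fun j hj => ?_⟩
  have hj' : ∀ n, x n ∈ Y j n := fun n => hj n (Set.mem_univ n)
  by_cases h : T1 j
  · apply hxZ (n1 j)
    refine Set.mem_iUnion.mpr ⟨j, ?_⟩
    rw [if_pos ⟨h, rfl⟩]
    exact hj' _
  · exact hxY (c j) j rfl h (hj' _)

/-- membership of boxes in the ideal -/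
theorem pi_mem_II_iff {H : Subgroup (∀ n, Γ n)} (hH : IsClosed (H : Set (∀ n, Γ n)))
    {X : ∀ n, Set (Γ n)} (hXH : ∀ n, X n ⊆ (comp H n : Set (Γ n))) :
    Set.pi Set.univ X ∈ II H ↔ Small H X := by
  constructor
  · rintro ⟨-, Y, hY, hsub⟩
    by_contra hX
    obtain ⟨x, hx, hxY⟩ := exists_avoid hH hX hY
    obtain ⟨j, hj⟩ := Set.mem_iUnion.mp (hsub (fun n _ => (hx n).1))
    exact hxY j hj
  · intro h
    have h1 := II_of_small h
    rwa [Set.inter_eq_left.mpr] at h1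
    intro x hx
    exact mem_of_forall_comp hH fun n => hXH n (hx n (Set.mem_univ n))

end Box

end Pool.Agent.MP842576
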