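import Mathlib
import Pool.Agent.Lib.MP_842576_h7.Defs

/-!
# Null sets of closed subgroups: index and products of subgroups
-/

set_option autoImplicit false
set_option linter.unusedSectionVars false
set_option linter.unusedVariables false

namespace Pool.Agent.MP842576

open scoped Pointwise
open MeasureTheory

section Haar

variable {Γ : Type} [Group Γ] [TopologicalSpace Γ] [IsTopologicalGroup Γ] [T2Space Γ]
  [LocallyCompactSpace Γ] [SecondCountableTopology Γ] [MeasurableSpace Γ] [BorelSpace Γ]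

omit [MeasurableSpace Γ] [BorelSpace Γ] [IsTopologicalGroup Γ] [T2Space Γ]
  [SecondCountableTopology Γ] in
theorem haar2_lc {H : Subgroup Γ} (hH : IsClosed (H : Set Γ)) : LocallyCompactSpace H :=
  hH.isClosedEmbedding_subtypeVal.locallyCompactSpace

omit [MeasurableSpace Γ] [BorelSpace Γ] [IsTopologicalGroup Γ] [T2Space Γ]
  [LocallyCompactSpace Γ] in
theorem haar2_sc (H : Subgroup Γ) : SecondCountableTopology H :=
  TopologicalSpace.Subtype.secondCountableTopology (H : Set Γ)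

omit [T2Space Γ] in
/-- Null sets do not depend on the Haar measure. -/
theorem haar2_iff {H : Subgroup Γ} (hH : IsClosed (H : Set Γ)) (μ : Measure H)
    [μ.IsHaarMeasure] {S : Set Γ} : Nul H S ↔ μ ((↑) ⁻¹' S : Set H) = 0 := by
  have := haar2_lc hH
  have := haar2_sc H
  constructor
  · rintro ⟨ν, hν, h0⟩
    exact Measure.absolutelyContinuous_isHaarMeasure μ ν h0
  · intro h
    exact ⟨μ, inferInstance, h⟩

omit [MeasurableSpace Γ] [BorelSpace Γ] [T2Space Γ] in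
theorem haar2_sigmaCompact {S : Set Γ} (hS : IsClosed S) : IsSigmaCompact S := by
  have h1 : SigmaCompactSpace S := hS.isClosedEmbedding_subtypeVal.sigmaCompactSpace
  have h2 := isSigmaCompact_range (f := ((↑) : S → Γ)) continuous_subtype_val
  rwa [Subtype.range_coe] at h2

omit [MeasurableSpace Γ] [BorelSpace Γ] [T2Space Γ] in
theorem haar2_mul_sigmaCompact {S T : Set Γ} (hS : IsClosed S) (hT : IsClosed T) :
    IsSigmaCompact (S * T) := by
  have h1 : SigmaCompactSpace (S ×ˢ T : Set (Γ × Γ)) :=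
    (hS.prod hT).isClosedEmbedding_subtypeVal.sigmaCompactSpace
  have h2 := isSigmaCompact_range (f := fun x : (S ×ˢ T : Set (Γ × Γ)) => x.1.1 * x.1.2)
    (by fun_prop)
  have h3 : Set.range (fun x : (S ×ˢ T : Set (Γ × Γ)) => x.1.1 * x.1.2) = S * T := by
    ext y
    constructor
    · rintro ⟨⟨⟨a, b⟩, ha, hb⟩, rfl⟩
      exact Set.mul_mem_mul ha hb
    · rintro ⟨a, ha, b, hb, rfl⟩
      exact ⟨⟨⟨a, b⟩, ha, hb⟩, rfl⟩
  rwa [h3] at h2

theorem haar2_measurable {S T : Set Γ} (hS : IsClosed S) (hT : IsClosed T) :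
    MeasurableSet (S * T) := by
  obtain ⟨K, hK, hU⟩ := haar2_mul_sigmaCompact hS hT
  rw [← hU]
  exact MeasurableSet.iUnion fun n => (hK n).measurableSet

/-- a closed subgroup is null exactly if its index is uncountable -/
theorem nul_subgroup_iff {K H : Subgroup Γ} (hK : IsClosed (K : Set Γ))
    (hH : IsClosed (H : Set Γ)) (hKH : K ≤ H) :
    Nul H (K : Set Γ) ↔ Uncountable (H ⧸ K.subgroupOf H) := by
  have := haar2_lc hH
  have := haar2_sc H
  set μ : Measure H := Measure.haar with hμ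
  rw [haar2_iff hH μ]
  set As : (H ⧸ K.subgroupOf H) → Set H := fun q => {h | (QuotientGroup.mk h : H ⧸ _) = q}
    with hAs
  have hpre : ∀ g : H, As (QuotientGroup.mk g) =
      (fun h => g⁻¹ * h) ⁻¹' ((↑) ⁻¹' (K : Set Γ) : Set H) := by
    intro g
    ext h
    show (QuotientGroup.mk h : H ⧸ K.subgroupOf H) = QuotientGroup.mk g ↔ _
    rw [eq_comm, QuotientGroup.eq]
    rfl
  have hm : MeasurableSet ((↑) ⁻¹' (K : Set Γ) : Set H) :=
    (hK.preimage continuous_subtype_val).measurableSet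
  have hAsm : ∀ q, MeasurableSet (As q) := by
    intro q
    obtain ⟨g, rfl⟩ := QuotientGroup.mk_surjective q
    rw [hpre]
    exact (measurable_const_mul g⁻¹) hm
  have hAsμ : ∀ q, μ (As q) = μ ((↑) ⁻¹' (K : Set Γ) : Set H) := by
    intro q
    obtain ⟨g, rfl⟩ := QuotientGroup.mk_surjective q
    rw [hpre, measure_preimage_mul]
  constructor
  · intro h0
    by_contra hcon
    rw [not_uncountable_iff] at hcon
    have h1 : (Set.univ : Set H) = ⋃ q, As q := by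
      ext h
      simp [hAs]
    have h2 : μ Set.univ = 0 := by
      rw [h1, measure_iUnion_null_iff]
      intro q
      rw [hAsμ, h0]
    exact (isOpen_univ.measure_ne_zero μ Set.univ_nonempty) h2
  · intro hunc
    by_contra hne
    have h1 := Measure.countable_meas_pos_of_disjoint_iUnion (μ := μ) hAsm (by
      intro q q' hqq
      rw [Function.onFun, Set.disjoint_left]
      intro h h1 h2
      exact hqq (h1.symm.trans h2))
    have h2 : {q | 0 < μ (As q)} = Set.univ := by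
      ext q
      simp only [Set.mem_ofPred_eq, Set.mem_univ, iff_true]
      rw [hAsμ]
      exact pos_iff_ne_zero.mpr hne
    rw [h2, Set.countable_univ_iff] at h1
    exact (not_uncountable_iff.mpr h1) hunc

/-- a co-null subgroup is everything -/
theorem le_of_conul {K H : Subgroup Γ} (hH : IsClosed (H : Set Γ)) (hKH : K ≤ H)
    (h : Nul H (K : Set Γ)ᶜ) : H ≤ K := by
  have := haar2_lc hH
  have := haar2_sc H
  set μ : Measure H := Measure.haar with hμ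
  rw [haar2_iff hH μ] at h
  intro x hx
  by_contra hxK
  have h1 : μ ((fun y => (⟨x, hx⟩ : H) * y) ⁻¹' ((↑) ⁻¹' (K : Set Γ)ᶜ : Set H)) = 0 := by
    rw [measure_preimage_mul]
    exact h
  have h2 : (Set.univ : Set H) ⊆ ((fun y => (⟨x, hx⟩ : H) * y) ⁻¹'
      ((↑) ⁻¹' (K : Set Γ)ᶜ : Set H)) ∪ ((↑) ⁻¹' (K : Set Γ)ᶜ : Set H) := by
    intro y _
    by_cases hy : (y : Γ) ∈ K
    · left
      show x * (y : Γ) ∈ (K : Set Γ)ᶜ
      intro h3
      apply hxK
      have := K.mul_mem h3 (K.inv_mem hy)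
      rwa [mul_inv_cancel_right] at this
    · right
      exact hy
  have h3 : μ Set.univ = 0 := measure_mono_null h2 (measure_union_null h1 h)
  exact (isOpen_univ.measure_ne_zero μ Set.univ_nonempty) h3

/-- the Fubini lemma -/
theorem haar2_fubini {G' M : Subgroup Γ} (h1 : IsClosed (G' : Set Γ))
    (h2 : IsClosed (M : Set Γ)) (hMG : M ≤ G') (μ : Measure G') [μ.IsHaarMeasure]
    (ν : Measure M) [ν.IsHaarMeasure] {S : Set Γ} (hS : MeasurableSet S) :
    Nul G' S ↔ ∀ᵐ x : G' ∂μ, ν {m : M | (x : Γ) * (m : Γ) ∈ S} = 0 := by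
  have := haar2_lc h1
  have := haar2_lc h2
  have := haar2_sc G'
  have := haar2_sc M
  rw [haar2_iff h1 μ]
  set T : Set (G' × M) := {y | (y.1 : Γ) * (y.2 : Γ) ∈ S} with hT
  have hTm : MeasurableSet T := by
    have hf : Measurable fun y : G' × M => (y.1 : Γ) * (y.2 : Γ) :=
      (Continuous.measurable (by fun_prop))
    exact hf hS
  have e1 : μ.prod ν T = 0 ↔ ∀ᵐ x : G' ∂μ, ν {m : M | (x : Γ) * (m : Γ) ∈ S} = 0 := by
    rw [Measure.measure_prod_null hTm]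
    rfl
  rw [← e1, ← Measure.prod_swap, Measure.map_apply measurable_swap hTm,
    Measure.measure_prod_null (measurable_swap hTm)]
  have e2 : ∀ m : M, μ (Prod.mk m ⁻¹' (Prod.swap ⁻¹' T)) = 0 ↔
      μ ((↑) ⁻¹' S : Set G') = 0 := by
    intro m
    have e3 : (Prod.mk m ⁻¹' (Prod.swap ⁻¹' T) : Set G') =
        (fun x => x * (⟨m, hMG m.2⟩ : G')) ⁻¹' ((↑) ⁻¹' S : Set G') := rfl
    rw [e3, measure_mul_right_null]
  constructor
  · intro h
    exact Filter.Eventually.of_forall fun m => (e2 m).mpr h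
  · intro h
    have hne : (ae ν).NeBot := by
      rw [ae_neBot]
      intro h0
      have h3 := isOpen_univ.measure_ne_zero ν Set.univ_nonempty
      rw [h0] at h3
      exact h3 rfl
    obtain ⟨m, hm⟩ := h.exists
    exact (e2 m).mp hm

/-- the sections over `H * K₂` -/
theorem haar2_section {K₂ K₃ H : Subgroup Γ} (h2 : IsClosed (K₂ : Set Γ)) (h32 : K₃ ≤ K₂)
    (ν : Measure K₂) [ν.IsHaarMeasure] {x : Γ} (hx : x ∈ (H : Set Γ) * (K₂ : Set Γ)) :
    (ν {m : K₂ | x * (m : Γ) ∈ (H : Set Γ) * (K₃ : Set Γ)} = 0 ↔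
      Nul K₂ (((H ⊓ K₂ : Subgroup Γ) : Set Γ) * (K₃ : Set Γ))) ∧
    (ν {m : K₂ | x * (m : Γ) ∈ ((H : Set Γ) * (K₃ : Set Γ))ᶜ} = 0 ↔
      Nul K₂ (((H ⊓ K₂ : Subgroup Γ) : Set Γ) * (K₃ : Set Γ))ᶜ) := by
  obtain ⟨h, hh, m₀, hm₀, rfl⟩ := hx
  have key : ∀ m : K₂, h * m₀ * (m : Γ) ∈ (H : Set Γ) * (K₃ : Set Γ) ↔
      m₀ * (m : Γ) ∈ ((H ⊓ K₂ : Subgroup Γ) : Set Γ) * (K₃ : Set Γ) := by
    intro m
    constructor
    · rintro ⟨a, ha, k, hk, hak⟩
      have e1 : m₀ * (m : Γ) = (h⁻¹ * a) * k := by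
        have : h * (m₀ * (m : Γ)) = a * k := by rw [← mul_assoc]; exact hak.symm
        rw [mul_assoc, ← this, inv_mul_cancel_left]
      have e2 : h⁻¹ * a ∈ H := H.mul_mem (H.inv_mem hh) ha
      have e3 : h⁻¹ * a ∈ K₂ := by
        have e4 : h⁻¹ * a = m₀ * (m : Γ) * k⁻¹ := by rw [e1, mul_inv_cancel_right]
        rw [e4]
        exact K₂.mul_mem (K₂.mul_mem hm₀ m.2) (K₂.inv_mem (h32 hk))
      rw [e1]
      exact Set.mul_mem_mul (show h⁻¹ * a ∈ ((H ⊓ K₂ : Subgroup Γ) : Set Γ) from ⟨e2, e3⟩) hk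
    · rintro ⟨a, ha, k, hk, hak⟩
      have e1 : h * m₀ * (m : Γ) = (h * a) * k := by
        rw [mul_assoc, mul_assoc]
        congr 1
        exact hak.symm
      rw [e1]
      exact Set.mul_mem_mul (H.mul_mem hh ha.1) hk
  rw [haar2_iff h2 ν, haar2_iff h2 ν]
  have s1 : {m : K₂ | h * m₀ * (m : Γ) ∈ (H : Set Γ) * (K₃ : Set Γ)} =
      (fun m => (⟨m₀, hm₀⟩ : K₂) * m) ⁻¹'
        ((↑) ⁻¹' (((H ⊓ K₂ : Subgroup Γ) : Set Γ) * (K₃ : Set Γ)) : Set K₂) := by
    ext m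
    exact key m
  have s2 : {m : K₂ | h * m₀ * (m : Γ) ∈ ((H : Set Γ) * (K₃ : Set Γ))ᶜ} =
      (fun m => (⟨m₀, hm₀⟩ : K₂) * m) ⁻¹'
        ((↑) ⁻¹' (((H ⊓ K₂ : Subgroup Γ) : Set Γ) * (K₃ : Set Γ))ᶜ : Set K₂) := by
    ext m
    exact not_congr (key m)
  constructor
  · show ν {m : K₂ | h * m₀ * (m : Γ) ∈ (H : Set Γ) * (K₃ : Set Γ)} = 0 ↔ _
    rw [s1, measure_preimage_mul]
  · show ν {m : K₂ | h * m₀ * (m : Γ) ∈ ((H : Set Γ) * (K₃ : Set Γ))ᶜ} = 0 ↔ _
    rw [s2, measure_preimage_mul]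

omit [TopologicalSpace Γ] [IsTopologicalGroup Γ] [T2Space Γ] [LocallyCompactSpace Γ]
  [SecondCountableTopology Γ] [MeasurableSpace Γ] [BorelSpace Γ] in
theorem haar2_empty {K₂ K₃ H : Subgroup Γ} (h32 : K₃ ≤ K₂) {x : Γ}
    (hx : x ∉ (H : Set Γ) * (K₂ : Set Γ)) (m : K₂) :
    x * (m : Γ) ∉ (H : Set Γ) * (K₃ : Set Γ) := by
  rintro ⟨a, ha, k, hk, hak⟩
  apply hx
  have e1 : x = a * (k * (m : Γ)⁻¹) := by
    rw [← mul_assoc]
    have : a * k = x * (m : Γ) := hak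
    rw [this, mul_inv_cancel_right]
  rw [e1]
  exact Set.mul_mem_mul ha (K₂.mul_mem (h32 hk) (K₂.inv_mem m.2))

/-- Fubini: products of closed subgroups -/
theorem nul_trans {K₁ K₂ K₃ H : Subgroup Γ} (h1 : IsClosed (K₁ : Set Γ))
    (h2 : IsClosed (K₂ : Set Γ)) (h3 : IsClosed (K₃ : Set Γ)) (hH : IsClosed (H : Set Γ))
    (h32 : K₃ ≤ K₂) (h21 : K₂ ≤ K₁) (hH1 : H ≤ K₁) :
    Nul K₁ ((H : Set Γ) * (K₃ : Set Γ)) ↔
      Nul K₂ (((H ⊓ K₂ : Subgroup Γ) : Set Γ) * (K₃ : Set Γ)) ∨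
        Nul K₁ ((H : Set Γ) * (K₂ : Set Γ)) := by
  have := haar2_lc h1
  have := haar2_lc h2
  have := haar2_sc K₁
  have := haar2_sc K₂
  set μ : Measure K₁ := Measure.haar with hμ
  set ν : Measure K₂ := Measure.haar with hν
  rw [haar2_fubini h1 h2 h21 μ ν (haar2_measurable hH h3), haar2_iff h1 μ (S := (H : Set Γ) *
    (K₂ : Set Γ))]
  have e1 : ∀ x : K₁, ν {m : K₂ | (x : Γ) * (m : Γ) ∈ (H : Set Γ) * (K₃ : Set Γ)} = 0 ↔
      (Nul K₂ (((H ⊓ K₂ : Subgroup Γ) : Set Γ) * (K₃ : Set Γ)) ∨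
        (x : Γ) ∉ (H : Set Γ) * (K₂ : Set Γ)) := by
    intro x
    by_cases hx : (x : Γ) ∈ (H : Set Γ) * (K₂ : Set Γ)
    · rw [(haar2_section h2 h32 ν hx).1]
      simp [hx]
    · have e2 : {m : K₂ | (x : Γ) * (m : Γ) ∈ (H : Set Γ) * (K₃ : Set Γ)} = ∅ := by
        ext m
        simp only [Set.mem_ofPred_eq, Set.mem_empty_iff_false, iff_false]
        exact haar2_empty h32 hx m
      rw [e2]
      simp [hx]
  simp only [e1]
  by_cases hN : Nul K₂ (((H ⊓ K₂ : Subgroup Γ) : Set Γ) * (K₃ : Set Γ))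
  · exact iff_of_true (Filter.Eventually.of_forall fun _ => Or.inl hN) (Or.inl hN)
  · simp only [hN, false_or]
    rw [ae_iff]
    simp only [not_not]
    rfl

theorem conul_trans {K₁ K₂ K₃ H : Subgroup Γ} (h1 : IsClosed (K₁ : Set Γ))
    (h2 : IsClosed (K₂ : Set Γ)) (h3 : IsClosed (K₃ : Set Γ)) (hH : IsClosed (H : Set Γ))
    (h32 : K₃ ≤ K₂) (h21 : K₂ ≤ K₁) (hH1 : H ≤ K₁) :
    Nul K₁ ((H : Set Γ) * (K₃ : Set Γ))ᶜ ↔
      Nul K₂ (((H ⊓ K₂ : Subgroup Γ) : Set Γ) * (K₃ : Set Γ))ᶜ ∧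
        Nul K₁ ((H : Set Γ) * (K₂ : Set Γ))ᶜ := by
  have := haar2_lc h1
  have := haar2_lc h2
  have := haar2_sc K₁
  have := haar2_sc K₂
  set μ : Measure K₁ := Measure.haar with hμ
  set ν : Measure K₂ := Measure.haar with hν
  rw [haar2_fubini h1 h2 h21 μ ν (haar2_measurable hH h3).compl, haar2_iff h1 μ
    (S := ((H : Set Γ) * (K₂ : Set Γ))ᶜ)]
  have hν0 : ν Set.univ ≠ 0 := isOpen_univ.measure_ne_zero ν Set.univ_nonempty
  have e1 : ∀ x : K₁, ν {m : K₂ | (x : Γ) * (m : Γ) ∈ ((H : Set Γ) * (K₃ : Set Γ))ᶜ} = 0 ↔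
      (Nul K₂ (((H ⊓ K₂ : Subgroup Γ) : Set Γ) * (K₃ : Set Γ))ᶜ ∧
        (x : Γ) ∈ (H : Set Γ) * (K₂ : Set Γ)) := by
    intro x
    by_cases hx : (x : Γ) ∈ (H : Set Γ) * (K₂ : Set Γ)
    · rw [(haar2_section h2 h32 ν hx).2]
      simp [hx]
    · have e2 : {m : K₂ | (x : Γ) * (m : Γ) ∈ ((H : Set Γ) * (K₃ : Set Γ))ᶜ} = Set.univ := by
        ext m
        simp only [Set.mem_ofPred_eq, Set.mem_univ, iff_true]
        exact haar2_empty h32 hx m
      rw [e2]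
      simp [hx, hν0]
  simp only [e1]
  have hne : (ae μ).NeBot := by
    rw [ae_neBot]
    intro h0
    have h3 := isOpen_univ.measure_ne_zero μ Set.univ_nonempty
    rw [h0] at h3
    exact h3 rfl
  rw [Filter.eventually_and, Filter.eventually_const]
  refine and_congr Iff.rfl ?_
  rw [ae_iff]
  rfl

end Haar

end Pool.Agent.MP842576
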