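import Mathlib
import Pool.Agent.Lib.MP_842576_h7.Defs

set_option autoImplicit false

namespace Pool.Agent.MP842576

/-- the inverse of a triangular map -/
noncomputable def triInv {p : ℕ} (f : Sq p → Sq p) (v : Sq p) (i : ℕ) : Al p i :=
  v i - f (fun j => if _h : j < i then triInv f v j else 0) i
termination_by i

theorem tri_triInv {p : ℕ} (f : Sq p → Sq p) (hf : IsTri f) (v : Sq p) :
    f (triInv f v) = v := by
  funext i
  have h1 := hf i (triInv f v) (fun j => if _h : j < i then triInv f v j else 0) (by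
    intro j hj
    simp [hj])
  rw [dif_neg (lt_irrefl i), sub_zero] at h1
  have h3 : triInv f v i = v i - f (fun j => if _h : j < i then triInv f v j else 0) i := by
    rw [triInv]
  rw [← h1] at h3
  have h4 : f (triInv f v) i = triInv f v i + (f (triInv f v) i - triInv f v i) := by abel
  rw [h4]
  nth_rewrite 1 [h3]
  abel

/-- triangular maps are bijections -/
theorem exists_perm {p : ℕ} (f : Sq p → Sq p) (hf : IsTri f) :
    ∃ g : Equiv.Perm (Sq p), (g : Sq p → Sq p) = f := by
  have hinj : Function.Injective f := by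
    intro w w' h
    funext i
    exact hf.agree_of (n := i + 1) (fun j _ => by rw [h]) i (Nat.lt_succ_self i)
  exact ⟨Equiv.ofBijective f ⟨hinj, fun v => ⟨triInv f v, tri_triInv f hf v⟩⟩, rfl⟩

theorem GG_pow_agree {p : ℕ} (g : GG p) (i : ℕ) (hg : ∀ j < i, ∀ w, g.1 w j = w j) (w : Sq p)
    (m : ℕ) : ∀ j < i, (g ^ m).1 w j = w j := by
  induction m with
  | zero => intro j _; rfl
  | succ m ih =>
    intro j hj
    have : (g ^ (m + 1)).1 w = g.1 ((g ^ m).1 w) := by
      rw [pow_succ']
      rfl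
    rw [this, hg j hj, ih j hj]

theorem GG_pow_apply {p : ℕ} (g : GG p) (i : ℕ) (hg : ∀ j < i, ∀ w, g.1 w j = w j) (w : Sq p)
    (m : ℕ) : (g ^ m).1 w i = w i + m • (g.1 w i - w i) := by
  induction m with
  | zero => rw [pow_zero, zero_smul, add_zero]; rfl
  | succ m ih =>
    have h1 : (g ^ (m + 1)).1 w = g.1 ((g ^ m).1 w) := by
      rw [pow_succ']
      rfl
    have h2 := g.2.1 i ((g ^ m).1 w) w (GG_pow_agree g i hg w m)
    rw [h1, ← sub_add_cancel (g.1 ((g ^ m).1 w) i) ((g ^ m).1 w i), h2, ih, succ_nsmul]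
    abel

theorem GG_pow_trivial {p : ℕ} (g : GG p) (k : ℕ) : ∀ j < k, ∀ w, (g ^ (p ^ k)).1 w j = w j := by
  induction k with
  | zero => intro j hj; omega
  | succ k ih =>
    intro j hj w
    rw [pow_succ, pow_mul]
    rcases Nat.lt_succ_iff_lt_or_eq.mp hj with h | h
    · exact GG_pow_agree (g ^ p ^ k) k ih w p j h
    · subst h
      rw [GG_pow_apply (g ^ p ^ j) j ih w p]
      have : p • ((g ^ p ^ j).1 w j - w j) = 0 := by
        funext a
        rw [Pi.smul_apply, Pi.zero_apply, nsmul_eq_mul, ZMod.natCast_self, zero_mul]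
      rw [this, add_zero]

/-- powers of an element tend to one -/
theorem exists_pow_mem {p : ℕ} (g : GG p) (U : Set (GG p)) (hU : U ∈ nhds (1 : GG p)) :
    ∃ k : ℕ, ∀ a : ℤ, (g ^ (p ^ k)) ^ a ∈ U := by
  obtain ⟨N, -, hN⟩ := (nhds_one_hasBasis p).mem_iff.mp hU
  obtain ⟨hg, n, hn⟩ := g.2
  have hev : ∀ m : ℕ, ∀ i, n ≤ i → Even i → ∀ w, (g ^ m).1 w i = w i := by
    intro m
    induction m with
    | zero => intro i _ _ w; rfl
    | succ m ih =>
      intro i hi he w
      have h1 : (g ^ (m + 1)).1 w = g.1 ((g ^ m).1 w) := by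
        rw [pow_succ']
        rfl
      rw [h1, hn i hi he, ih i hi he]
  refine ⟨max N n, fun a => hN ?_⟩
  have hmem : g ^ (p ^ max N n) ∈ VV p N := by
    intro i hi w
    by_cases hlt : i < max N n
    · exact GG_pow_trivial g _ i hlt w
    · push Not at hlt
      rcases hi with h | h
      · exact absurd (lt_of_lt_of_le h (le_max_left N n)) (not_lt.mpr hlt)
      · exact hev _ i (le_trans (le_max_right _ _) hlt) h w
  exact (VV p N).zpow_mem hmem a

end Pool.Agent.MP842576
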