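import Mathlib
import Pool.Agent.Lib.MP_842576_h7.Defs
import Pool.Agent.Lib.MP_842576_h7.Tri

set_option autoImplicit false

namespace Pool.Agent.MP842576

open scoped Pointwise

theorem exists_GG {p : ℕ} (f : Sq p → Sq p) (hf : IsTri f)
    (hn : ∃ n : ℕ, ∀ i, n ≤ i → Even i → ∀ w, f w i = w i) :
    ∃ g : GG p, ∀ w, g.1 w = f w := by
  obtain ⟨g, hg⟩ := exists_perm f hf
  refine ⟨⟨g, ?_, ?_⟩, fun w => congrFun hg w⟩
  · rw [hg]; exact hf
  · obtain ⟨n, hn⟩ := hn
    refine ⟨n, fun i hi he w => ?_⟩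
    have := congrFun hg w
    rw [this]
    exact hn i hi he w

/-- the state after reading the first `i` letters: letters at even places are added, the zero
letter at an odd place resets the state to zero -/
def st {p : ℕ} (w : Sq p) : ℕ → ZMod p
  | 0 => 0
  | i + 1 => if Even i then st w i + w i 0 else if w i = 0 then 0 else st w i

theorem st_succ_even {p : ℕ} (w : Sq p) {i : ℕ} (h : Even i) : st w (i + 1) = st w i + w i 0 := by
  rw [st, if_pos h]

theorem st_succ_odd {p : ℕ} (w : Sq p) {i : ℕ} (h : ¬ Even i) :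
    st w (i + 1) = if w i = 0 then 0 else st w i := by
  rw [st, if_neg h]

theorem st_agree {p : ℕ} {w w' : Sq p} {n : ℕ} (h : ∀ j < n, w j = w' j) :
    st w n = st w' n := by
  induction n with
  | zero => rfl
  | succ n ih =>
    have h1 := ih (fun j hj => h j (lt_trans hj (Nat.lt_succ_self n)))
    have h2 := h n (Nat.lt_succ_self n)
    by_cases he : Even n
    · rw [st_succ_even w he, st_succ_even w' he, h1, h2]
    · rw [st_succ_odd w he, st_succ_odd w' he, h1, h2]

theorem st_zero {p : ℕ} (n : ℕ) : st (0 : Sq p) n = 0 := by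
  induction n with
  | zero => rfl
  | succ n ih =>
    by_cases he : Even n
    · rw [st_succ_even _ he, ih, zero_add]
      rfl
    · rw [st_succ_odd _ he, ih, ite_self]

/-- the orbit: eventually the letters at even places and the state are zero -/
def OO (p : ℕ) : Set (Sq p) := {w | ∃ m, ∀ i, m ≤ i → (Even i → w i = 0) ∧ st w i = 0}

theorem mem_OO_of {p : ℕ} {w : Sq p} {m : ℕ} (h0 : st w m = 0)
    (h : ∀ i, m ≤ i → Even i → w i = 0) : w ∈ OO p := by
  refine ⟨m, fun i hi => ⟨h i hi, ?_⟩⟩
  induction i, hi using Nat.le_induction with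
  | base => exact h0
  | succ i hi ih =>
    by_cases he : Even i
    · rw [st_succ_even _ he, ih, h i hi he, zero_add]
      rfl
    · rw [st_succ_odd _ he, ih, ite_self]

theorem zero_mem_OO (p : ℕ) : (0 : Sq p) ∈ OO p := ⟨0, fun i _ => ⟨fun _ => rfl, st_zero i⟩⟩

/-- the stabiliser of the orbit -/
def KK (p : ℕ) : Subgroup (GG p) where
  carrier := {g | ∀ w, g.1 w ∈ OO p ↔ w ∈ OO p}
  one_mem' := fun w => Iff.rfl
  mul_mem' := by
    intro g h hg hh w
    have h1 : (g * h).1 w = g.1 (h.1 w) := rfl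
    rw [h1, hg, hh]
  inv_mem' := by
    intro g hg w
    have h1 : (g⁻¹).1 w = g.1.symm w := rfl
    have h2 := hg (g.1.symm w)
    rw [Equiv.apply_symm_apply] at h2
    rw [h1, ← h2]

/-- the stabiliser of the zero sequence -/
def MM (p : ℕ) : Subgroup (GG p) where
  carrier := {g | g.1 0 = 0}
  one_mem' := rfl
  mul_mem' := by
    intro g h hg hh
    have h1 : (g * h).1 0 = g.1 (h.1 0) := rfl
    show (g * h).1 0 = 0
    rw [h1, show h.1 0 = 0 from hh]
    exact hg
  inv_mem' := by
    intro g hg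
    have h1 : (g⁻¹).1 0 = g.1.symm 0 := rfl
    show (g⁻¹).1 0 = 0
    rw [h1, Equiv.symm_apply_eq]
    exact (show g.1 0 = 0 from hg).symm

theorem eventually_right {p : ℕ} (g : GG p) (N : ℕ) :
    ∀ᶠ g' in nhds g, g' * g⁻¹ ∈ VV p N := by
  have h1 : Filter.Tendsto (fun g' : GG p => g' * g⁻¹) (nhds g) (nhds 1) := by
    have : Filter.Tendsto (fun g' : GG p => g' * g⁻¹) (nhds g) (nhds (g * g⁻¹)) :=
      (continuous_id.mul continuous_const).tendsto g
    rwa [mul_inv_cancel] at this
  exact h1.eventually ((nhds_one_hasBasis p).mem_of_mem trivial)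

theorem isOpen_orbit {p : ℕ} (w : Sq p) : IsOpen {g : GG p | g.1 w ∈ OO p} := by
  rw [isOpen_iff_mem_nhds]
  rintro g ⟨m, hm⟩
  filter_upwards [eventually_right g m] with g' hg'
  have h1 : g'.1 w = (g' * g⁻¹).1 (g.1 w) := by
    have : (g' * g⁻¹).1 (g.1 w) = g'.1 (g.1.symm (g.1 w)) := rfl
    rw [this, Equiv.symm_apply_apply]
  show g'.1 w ∈ OO p
  rw [h1]
  apply mem_OO_of (m := m)
  · rw [st_agree (w' := g.1 w) (fun j hj => hg' j (Or.inl hj) _)]
    exact (hm m le_rfl).2
  · intro i hi he
    rw [hg' i (Or.inr he)]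
    exact (hm i hi).1 he

theorem isClosed_KK (p : ℕ) : IsClosed (KK p : Set (GG p)) := by
  have h1 : (KK p : Set (GG p)) = (⋂ w : {w : Sq p // w ∉ OO p}, {g : GG p | g.1 w.1 ∈ OO p}ᶜ) ∩
      (⋂ w : {w : Sq p // w ∉ OO p}, (fun g : GG p => g⁻¹) ⁻¹' {g : GG p | g.1 w.1 ∈ OO p}ᶜ) := by
    ext g
    constructor
    · intro hg
      refine ⟨Set.mem_iInter.mpr fun w => ?_, Set.mem_iInter.mpr fun w => ?_⟩
      · exact fun h => w.2 ((hg w.1).mp h)
      · exact fun h => w.2 (((KK p).inv_mem hg w.1).mp h)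
    · rintro ⟨h2, h3⟩ w
      rw [Set.mem_iInter] at h2 h3
      constructor
      · intro h
        by_contra hw
        exact h2 ⟨w, hw⟩ h
      · intro h
        by_contra hw
        apply h3 ⟨g.1 w, hw⟩
        show (g⁻¹).1 (g.1 w) ∈ OO p
        have : (g⁻¹).1 (g.1 w) = w := Equiv.symm_apply_apply _ _
        rw [this]
        exact h
  rw [h1]
  refine IsClosed.inter (isClosed_iInter fun w => (isOpen_orbit w.1).isClosed_compl)
    (isClosed_iInter fun w => ((isOpen_orbit w.1).isClosed_compl).preimage continuous_inv)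

theorem isClosed_MM (p : ℕ) : IsClosed (MM p : Set (GG p)) := by
  rw [← isOpen_compl_iff, isOpen_iff_mem_nhds]
  intro g hg
  have hg' : g.1 0 ≠ 0 := hg
  obtain ⟨i, hi⟩ := Function.ne_iff.mp hg'
  filter_upwards [eventually_right g (i + 1)] with g' h'
  intro hm
  have h1 : g'.1 0 = (g' * g⁻¹).1 (g.1 0) := by
    have : (g' * g⁻¹).1 (g.1 0) = g'.1 (g.1.symm (g.1 0)) := rfl
    rw [this, Equiv.symm_apply_apply]
  have h2 : g'.1 0 = 0 := hm
  apply hi
  rw [← h' i (Or.inl (Nat.lt_succ_self i)) (g.1 0), ← h1, h2]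

/-- the map that sends the zero sequence to `y` -/
def mv {p : ℕ} (y : Sq p) (m : ℕ) (w : Sq p) (i : ℕ) : Al p i :=
  if i < m then w i + y i
  else if i = m then w i + (fun j => if j = 0 then st w i - st (w + y) i else 0)
  else if Even i then w i
  else w i + (if st w i = 0 then y i else 0)

theorem mv_tri {p : ℕ} (y : Sq p) (m : ℕ) : IsTri (mv y m) := by
  intro i w w' h
  have hs : st w i = st w' i := st_agree h
  have hs' : st (w + y) i = st (w' + y) i := st_agree (fun j hj => by
    rw [Pi.add_apply, Pi.add_apply, h j hj])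
  unfold mv
  split_ifs <;> simp_all

theorem exists_KK {p : ℕ} {y : Sq p} (hy : y ∈ OO p) : ∃ k ∈ KK p, k.1 0 = y := by
  obtain ⟨m₀, hm₀⟩ := hy
  set m := 2 * m₀ with hm
  have hme : Even m := ⟨m₀, by omega⟩
  have hle : m₀ ≤ m := by omega
  obtain ⟨k, hk⟩ := exists_GG (mv y m) (mv_tri y m) ⟨m + 1, fun i hi he w => by
    unfold mv
    rw [if_neg (by omega), if_neg (by omega), if_pos he]⟩
  have hagree : ∀ (w : Sq p), ∀ j < m, mv y m w j = (w + y) j := by
    intro w j hj
    unfold mv
    rw [if_pos hj]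
    rfl
  have hstate : ∀ (w : Sq p) (i : ℕ), m + 1 ≤ i → st (mv y m w) i = st w i := by
    intro w i hi
    induction i, hi using Nat.le_induction with
    | base =>
      rw [st_succ_even _ hme, st_succ_even _ hme, st_agree (hagree w)]
      have : mv y m w m 0 = w m 0 + (st w m - st (w + y) m) := by
        unfold mv
        rw [if_neg (lt_irrefl m), if_pos rfl]
        simp
      rw [this]
      ring
    | succ i hi ih =>
      by_cases he : Even i
      · rw [st_succ_even _ he, st_succ_even _ he, ih]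
        have : mv y m w i = w i := by
          unfold mv
          rw [if_neg (by omega), if_neg (by omega), if_pos he]
        rw [this]
      · rw [st_succ_odd _ he, st_succ_odd _ he, ih]
        have : mv y m w i = w i + (if st w i = 0 then y i else 0) := by
          unfold mv
          rw [if_neg (by omega), if_neg (by omega), if_neg he]
        rw [this]
        by_cases hz : st w i = 0
        · rw [hz, ite_self, ite_self]
        · rw [if_neg hz, add_zero]
  refine ⟨k, fun w => ?_, ?_⟩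
  · rw [hk w]
    constructor
    · rintro ⟨M, hM⟩
      refine ⟨max M (m + 1), fun i hi => ?_⟩
      have h1 := hM i (le_trans (le_max_left _ _) hi)
      have h2 : m + 1 ≤ i := le_trans (le_max_right _ _) hi
      rw [hstate w i h2] at h1
      refine ⟨fun he => ?_, h1.2⟩
      rw [← h1.1 he]
      unfold mv
      rw [if_neg (by omega), if_neg (by omega), if_pos he]
    · rintro ⟨M, hM⟩
      refine ⟨max M (m + 1), fun i hi => ?_⟩
      have h1 := hM i (le_trans (le_max_left _ _) hi)
      have h2 : m + 1 ≤ i := le_trans (le_max_right _ _) hi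
      rw [hstate w i h2]
      refine ⟨fun he => ?_, h1.2⟩
      rw [← h1.1 he]
      unfold mv
      rw [if_neg (by omega), if_neg (by omega), if_pos he]
  · rw [hk 0]
    funext i
    unfold mv
    split_ifs with h1 h2 h3 h4
    · rw [Pi.zero_apply, zero_add]
    · subst h2
      rw [zero_add, st_zero, (hm₀ m hle).2, (hm₀ m hle).1 hme]
      simp only [sub_zero, ite_self]
      funext j
      simp
    · rw [(hm₀ i (by omega)).1 h3]
      rfl
    · rw [Pi.zero_apply, zero_add]
    · exact absurd (st_zero i) h4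

theorem KK_mul_MM (p : ℕ) :
    (KK p : Set (GG p)) * (MM p : Set (GG p)) = {g : GG p | g.1 0 ∈ OO p} := by
  ext g
  constructor
  · rintro ⟨k, hk, m, hm, rfl⟩
    show (k * m).1 0 ∈ OO p
    have h1 : (k * m).1 0 = k.1 (m.1 0) := rfl
    have h2 : m.1 0 = 0 := hm
    rw [h1, h2]
    exact (hk 0).mpr (zero_mem_OO p)
  · intro hg
    obtain ⟨k, hk, hk0⟩ := exists_KK hg
    refine ⟨k, hk, k⁻¹ * g, ?_, by simp⟩
    show (k⁻¹ * g).1 0 = 0
    have h1 : (k⁻¹ * g).1 0 = k.1.symm (g.1 0) := rfl
    rw [h1, Equiv.symm_apply_eq]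
    exact hk0.symm

/-- translation of one letter -/
theorem exists_shift {p : ℕ} (i : ℕ) (c : Al p i) :
    ∃ t : GG p, ∀ w, t.1 w = fun j => w j + (Pi.single i c : Sq p) j := by
  apply exists_GG
  · intro j w w' _
    simp
  · refine ⟨i + 1, fun j hj _ w => ?_⟩
    rw [Pi.single_eq_of_ne (by omega), add_zero]

theorem dense_orbit (p : ℕ) : Dense {g : GG p | g.1 0 ∈ OO p} := by
  intro g
  rw [mem_closure_iff_nhds]
  intro U hU
  have h1 : Filter.Tendsto (fun v : GG p => v * g) (nhds 1) (nhds g) := by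
    have : Filter.Tendsto (fun v : GG p => v * g) (nhds 1) (nhds (1 * g)) :=
      (continuous_id.mul continuous_const).tendsto 1
    rwa [one_mul] at this
  obtain ⟨N, -, hN⟩ := (nhds_one_hasBasis p).mem_iff.mp (h1 hU)
  obtain ⟨-, n, hn⟩ := g.2
  set i := 2 * (N + n) + 1 with hi
  have hio : ¬ Even i := by
    rw [Nat.not_even_iff_odd]
    exact ⟨N + n, rfl⟩
  obtain ⟨t, ht⟩ := exists_shift i (-(g.1 0 i))
  have htV : t ∈ VV p N := by
    intro j hj w
    rw [ht w]
    have hji : j ≠ i := by
      rintro rfl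
      rcases hj with h | h
      · omega
      · exact hio h
    show w j + (Pi.single i (-(g.1 0 i)) : Sq p) j = w j
    rw [Pi.single_eq_of_ne hji, add_zero]
  refine ⟨t * g, hN htV, ?_⟩
  show (t * g).1 0 ∈ OO p
  have h2 : (t * g).1 0 = fun j => g.1 0 j + (Pi.single i (-(g.1 0 i)) : Sq p) j := ht (g.1 0)
  rw [h2]
  apply mem_OO_of (m := i + 1)
  · rw [st_succ_odd _ hio, if_pos]
    simp
  · intro j hj he
    rw [Pi.single_eq_of_ne (by omega), add_zero, hn j (by omega) he]
    rfl

end Pool.Agent.MP842576
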