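import Mathlib
import Pool.Agent.Lib.MP_842576_h7.Defs
import Pool.Agent.Lib.MP_842576_h7.Tri

set_option autoImplicit false

namespace Pool.Agent.MP842576

open Topology Filter

/-! ### The group is Hausdorff -/

theorem top_t2 (p : ℕ) : T2Space (GG p) := by
  refine IsTopologicalGroup.t2Space_of_one_sep fun x hx => ?_
  have h1 : ∃ i : ℕ, ∃ w : Sq p, x.1 w i ≠ w i := by
    by_contra hcon
    push Not at hcon
    apply hx
    apply Subtype.ext
    apply Equiv.ext
    intro w
    funext i
    exact hcon i w
  obtain ⟨i, w, hiw⟩ := h1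
  refine ⟨(VV p (i + 1) : Set (GG p)), (nhds_one_hasBasis p).mem_of_mem trivial, fun hmem => ?_⟩
  exact hiw (hmem i (Or.inl (Nat.lt_succ_self i)) w)

instance {p : ℕ} : T2Space (GG p) := top_t2 p

/-! ### Coordinates -/

/-- functions of the letters before place `i`, with values in the letters at place `i` -/
def TopFn (p i : ℕ) : Type := (∀ j : Fin i, Al p j) → Al p i

instance (p i : ℕ) : TopologicalSpace (TopFn p i) := ⊥

instance (p i : ℕ) : DiscreteTopology (TopFn p i) := ⟨rfl⟩

theorem topFn_finite (p i : ℕ) [NeZero p] : Finite (TopFn p i) := by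
  unfold TopFn
  infer_instance

instance (p i : ℕ) [NeZero p] : Finite (TopFn p i) := topFn_finite p i

/-- the triangular map with given coordinates; the coordinates at even places `≥ n` are ignored -/
def topMap {p : ℕ} (n : ℕ) (f : ∀ i, TopFn p i) (w : Sq p) : Sq p :=
  fun i => w i + if n ≤ i ∧ Even i then 0 else f i (fun j => w j)

theorem topMap_isTri {p : ℕ} (n : ℕ) (f : ∀ i, TopFn p i) : IsTri (topMap n f) := by
  intro i w w' h
  have h1 : (fun j : Fin i => w j) = fun j : Fin i => w' j := by
    funext j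
    exact h j j.2
  unfold topMap
  rw [h1]
  simp

/-- the element with given coordinates -/
noncomputable def topPhi {p : ℕ} (n : ℕ) (f : ∀ i, TopFn p i) : GG p :=
  ⟨(exists_perm (topMap n f) (topMap_isTri n f)).choose, by
    have h := (exists_perm (topMap n f) (topMap_isTri n f)).choose_spec
    refine ⟨?_, n, fun i hi he w => ?_⟩
    · rw [h]
      exact topMap_isTri n f
    · rw [h]
      unfold topMap
      rw [if_pos ⟨hi, he⟩, add_zero]⟩

theorem topPhi_apply {p : ℕ} (n : ℕ) (f : ∀ i, TopFn p i) (w : Sq p) :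
    (topPhi n f).1 w = topMap n f w :=
  congrFun (exists_perm (topMap n f) (topMap_isTri n f)).choose_spec w

theorem topMap_congr {p : ℕ} (n N : ℕ) (f f0 : ∀ i, TopFn p i) (h : ∀ j < max n N, f j = f0 j)
    (u : Sq p) (i : ℕ) (hi : i < N ∨ Even i) : topMap n f u i = topMap n f0 u i := by
  unfold topMap
  by_cases hc : n ≤ i ∧ Even i
  · rw [if_pos hc, if_pos hc]
  · rw [if_neg hc, if_neg hc]
    have hlt : i < max n N := by
      rcases hi with h1 | h1
      · exact lt_of_lt_of_le h1 (le_max_right _ _)
      · have : ¬ n ≤ i := fun h2 => hc ⟨h2, h1⟩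
        exact lt_of_lt_of_le (not_le.mp this) (le_max_left _ _)
    rw [h i hlt]

theorem topPhi_mul_inv_mem {p : ℕ} (n N : ℕ) (f f0 : ∀ i, TopFn p i)
    (h : ∀ j < max n N, f j = f0 j) : topPhi n f * (topPhi n f0)⁻¹ ∈ VV p N := by
  intro i hi w
  have h1 : (topPhi n f * (topPhi n f0)⁻¹).1 w = (topPhi n f).1 ((topPhi n f0).1.symm w) := rfl
  have h2 : (topPhi n f0).1 ((topPhi n f0).1.symm w) = w := Equiv.apply_symm_apply _ _
  rw [h1, topPhi_apply, topMap_congr n N f f0 h _ i hi, ← topPhi_apply, h2]

theorem continuous_topPhi {p : ℕ} (n : ℕ) : Continuous (topPhi (p := p) n) := by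
  rw [continuous_iff_continuousAt]
  intro f0
  have h : Tendsto (fun f => topPhi n f * (topPhi n f0)⁻¹) (𝓝 f0) (𝓝 (1 : GG p)) := by
    rw [(nhds_one_hasBasis p).tendsto_right_iff]
    intro N _
    have h1 : ∀ j : ℕ, ∀ᶠ f in 𝓝 f0, f j = f0 j := by
      intro j
      have h2 : Tendsto (fun f : ∀ i, TopFn p i => f j) (𝓝 f0) (𝓝 (f0 j)) :=
        (continuous_apply j).tendsto f0
      have h3 : ({f0 j} : Set (TopFn p j)) ∈ 𝓝 (f0 j) :=
        (isOpen_discrete ({f0 j} : Set (TopFn p j))).mem_nhds rfl
      exact h2 h3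
    have h4 : ∀ᶠ f in 𝓝 f0, ∀ j ∈ Finset.range (max n N), f j = f0 j := by
      rw [Filter.eventually_all_finset]
      intro j _
      exact h1 j
    filter_upwards [h4] with f hf
    exact topPhi_mul_inv_mem n N f f0 (fun j hj => hf j (Finset.mem_range.mpr hj))
  have h5 := h.mul_const (topPhi n f0)
  simpa [ContinuousAt] using h5

/-- extension by zero -/
def topExt {p : ℕ} (i : ℕ) (s : ∀ j : Fin i, Al p j) : Sq p :=
  fun j => if h : j < i then s ⟨j, h⟩ else 0

theorem range_topPhi {p : ℕ} (n : ℕ) :
    Set.range (topPhi (p := p) n) = {g : GG p | ∀ i, n ≤ i → Even i → ∀ w, g.1 w i = w i} := by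
  apply Set.Subset.antisymm
  · rintro _ ⟨f, rfl⟩ i hi he w
    rw [topPhi_apply]
    unfold topMap
    rw [if_pos ⟨hi, he⟩, add_zero]
  · intro g hg
    refine ⟨fun i s => g.1 (topExt i s) i - topExt i s i, ?_⟩
    apply Subtype.ext
    apply Equiv.ext
    intro w
    rw [topPhi_apply]
    funext i
    unfold topMap
    by_cases hc : n ≤ i ∧ Even i
    · rw [if_pos hc, add_zero]
      exact (hg i hc.1 hc.2 w).symm
    · rw [if_neg hc]
      have h1 := g.2.1 i (topExt i (fun j => w j)) w (by
        intro j hj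
        unfold topExt
        rw [dif_pos hj])
      have h2 : w i + (g.1 w i - w i) = g.1 w i := by abel
      rw [← h2, ← h1]

/-- the set of elements that preserve the letters at even places `≥ n` is compact -/
theorem isCompact_level {p : ℕ} [NeZero p] (n : ℕ) :
    IsCompact {g : GG p | ∀ i, n ≤ i → Even i → ∀ w, g.1 w i = w i} := by
  rw [← range_topPhi]
  exact isCompact_range (continuous_topPhi n)

theorem top_locallyCompact (p : ℕ) [NeZero p] : LocallyCompactSpace (GG p) := by
  refine (isCompact_level (p := p) 0).locallyCompactSpace_of_mem_nhds_of_group (x := 1) ?_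
  have h : (VV p 0 : Set (GG p)) ∈ 𝓝 (1 : GG p) := (nhds_one_hasBasis p).mem_of_mem trivial
  refine Filter.mem_of_superset h ?_
  intro g hg i _ he w
  exact hg i (Or.inr he) w

instance {p : ℕ} [NeZero p] : LocallyCompactSpace (GG p) := top_locallyCompact p

theorem top_sigmaCompact (p : ℕ) [NeZero p] : SigmaCompactSpace (GG p) := by
  refine ⟨fun n => {g : GG p | ∀ i, n ≤ i → Even i → ∀ w, g.1 w i = w i},
    fun n => isCompact_level n, ?_⟩
  rw [Set.eq_univ_iff_forall]
  intro g
  obtain ⟨n, hn⟩ := g.2.2
  exact Set.mem_iUnion.mpr ⟨n, hn⟩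

theorem top_nhds_countable (p : ℕ) : (𝓝 (1 : GG p)).IsCountablyGenerated :=
  (nhds_one_hasBasis p).isCountablyGenerated

theorem top_secondCountable (p : ℕ) [NeZero p] : SecondCountableTopology (GG p) := by
  have h1 := top_sigmaCompact p
  have h2 := top_nhds_countable p
  let us : UniformSpace (GG p) := IsTopologicalGroup.rightUniformSpace (GG p)
  have h3 : (uniformity (GG p)).IsCountablyGenerated := by
    have : uniformity (GG p) = comap (fun q : GG p × GG p => q.2 * q.1⁻¹) (𝓝 1) := rfl
    rw [this]
    infer_instance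
  let pm : PseudoMetricSpace (GG p) := UniformSpace.pseudoMetricSpace (GG p)
  exact EMetric.secondCountable_of_sigmaCompact (GG p)

instance {p : ℕ} [NeZero p] : SecondCountableTopology (GG p) := top_secondCountable p

theorem top_polish (p : ℕ) [NeZero p] : PolishSpace (GG p) := by
  have h2 := top_nhds_countable p
  let us : UniformSpace (GG p) := IsTopologicalGroup.rightUniformSpace (GG p)
  have h0 : IsRightUniformGroup (GG p) :=
    { uniformity_eq := rfl }
  have h3 : (uniformity (GG p)).IsCountablyGenerated := by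
    have : uniformity (GG p) = comap (fun q : GG p × GG p => q.2 * q.1⁻¹) (𝓝 1) := rfl
    rw [this]
    infer_instance
  have h4 : CompleteSpace (GG p) := IsRightUniformGroup.completeSpace_of_weaklyLocallyCompactSpace
  have h5 : TopologicalSpace.IsCompletelyMetrizableSpace (GG p) := inferInstance
  exact {}

instance {p : ℕ} [NeZero p] : PolishSpace (GG p) := top_polish p

end Pool.Agent.MP842576
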