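import Mathlib
import Pool.Agent.Lib.MP_842576_h7.Defs
import Pool.Agent.Lib.MP_842576_h7.Tri
import Pool.Agent.Lib.MP_842576_h7.Orbit
import Pool.Agent.Lib.MP_842576_h7.Haar1
import Pool.Agent.Lib.MP_842576_h7.Top

set_option autoImplicit false

namespace Pool.Agent.MP842576

open scoped Pointwise
open MeasureTheory

theorem VV_zero_eq (p : ℕ) :
    (VV p 0 : Set (GG p)) = {g : GG p | ∀ i, 0 ≤ i → Even i → ∀ w, g.1 w i = w i} := by
  ext g
  constructor
  · intro hg i _ he w
    exact hg i (Or.inr he) w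
  · intro hg i hi w
    rcases hi with h | h
    · omega
    · exact hg i (Nat.zero_le i) h w

theorem isOpen_VV (p N : ℕ) : IsOpen (VV p N : Set (GG p)) :=
  Subgroup.isOpen_of_mem_nhds (VV p N) (g := 1) ((nhds_one_hasBasis p).mem_of_mem trivial)

/-- The letters of the image of a sequence depend only on a coset. -/
theorem isOpen_letter {p : ℕ} (w : Sq p) (i : ℕ) (c : Al p i) :
    IsOpen {g : GG p | g.1 w i = c} := by
  rw [isOpen_iff_mem_nhds]
  intro g hg
  filter_upwards [eventually_right g (i + 1)] with g' hg'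
  have h1 : g'.1 w = (g' * g⁻¹).1 (g.1 w) := by
    have : (g' * g⁻¹).1 (g.1 w) = g'.1 (g.1.symm (g.1 w)) := rfl
    rw [this, Equiv.symm_apply_apply]
  show g'.1 w i = c
  rw [h1, hg' i (Or.inl (Nat.lt_succ_self i))]
  exact hg

/-- the measure of the set of elements of the compact open subgroup with a given letter zero -/
theorem measure_letter {p : ℕ} [Fact p.Prime] [MeasurableSpace (GG p)] [BorelSpace (GG p)]
    (μ : Measure (GG p)) [μ.IsMulLeftInvariant] (w : Sq p) (i : ℕ) (hi : ¬ Even i) :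
    (p ^ (i + 1) : ℕ) * μ ((VV p 0 : Set (GG p)) ∩ {g : GG p | g.1 w i = 0}) ≤
      μ (VV p 0 : Set (GG p)) := by
  have hmeas : ∀ c : Al p i, MeasurableSet ((VV p 0 : Set (GG p)) ∩ {g : GG p | g.1 w i = c}) :=
    fun c => ((isOpen_VV p 0).inter (isOpen_letter w i c)).measurableSet
  have heq : ∀ c : Al p i, μ ((VV p 0 : Set (GG p)) ∩ {g : GG p | g.1 w i = c}) =
      μ ((VV p 0 : Set (GG p)) ∩ {g : GG p | g.1 w i = 0}) := by
    intro c
    obtain ⟨t, ht⟩ := exists_shift i c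
    have htV : t ∈ VV p 0 := by
      intro j hj v
      rw [ht v]
      have hji : j ≠ i := by
        rintro rfl
        rcases hj with h | h
        · omega
        · exact hi h
      show v j + (Pi.single i c : Sq p) j = v j
      rw [Pi.single_eq_of_ne hji, add_zero]
    rw [← measure_preimage_mul μ t]
    congr 1
    ext g
    constructor
    · rintro ⟨h1, h2⟩
      refine ⟨((VV p 0).mul_mem_cancel_left htV).mp h1, ?_⟩
      have h3 : (t * g).1 w i = c := h2
      have h4 : (t * g).1 w i = g.1 w i + (Pi.single i c : Sq p) i := by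
        have : (t * g).1 w = t.1 (g.1 w) := rfl
        rw [this, ht]
      rw [h4, Pi.single_eq_same] at h3
      show g.1 w i = 0
      simpa using h3
    · rintro ⟨h1, h2⟩
      refine ⟨(VV p 0).mul_mem htV h1, ?_⟩
      have h4 : (t * g).1 w i = g.1 w i + (Pi.single i c : Sq p) i := by
        have : (t * g).1 w = t.1 (g.1 w) := rfl
        rw [this, ht]
      show (t * g).1 w i = c
      have h2' : g.1 w i = 0 := h2
      rw [h4, Pi.single_eq_same, h2', zero_add]
  have hcard : Fintype.card (Al p i) = p ^ (i + 1) := by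
    rw [Fintype.card_fun, ZMod.card, Fintype.card_fin]
  calc ((p ^ (i + 1) : ℕ) : ENNReal) * μ ((VV p 0 : Set (GG p)) ∩ {g : GG p | g.1 w i = 0})
      = ∑ c : Al p i, μ ((VV p 0 : Set (GG p)) ∩ {g : GG p | g.1 w i = c}) := by
        simp only [heq]
        rw [Finset.sum_const, Finset.card_univ, hcard, nsmul_eq_mul]
    _ = μ (⋃ c ∈ (Finset.univ : Finset (Al p i)),
          ((VV p 0 : Set (GG p)) ∩ {g : GG p | g.1 w i = c})) := by
        rw [measure_biUnion_finset]
        · intro c _ c' _ hcc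
          rw [Function.onFun, Set.disjoint_left]
          rintro g ⟨-, h1⟩ ⟨-, h2⟩
          exact hcc ((show g.1 w i = c from h1).symm.trans h2)
        · intro c _
          exact hmeas c
    _ ≤ μ (VV p 0 : Set (GG p)) := by
        apply measure_mono
        intro g hg
        simp only [Set.mem_iUnion] at hg
        obtain ⟨c, _, hc, _⟩ := hg
        exact hc

/-- the sequence with first letter one -/
def ee (p : ℕ) : Sq p := Pi.single 0 1

theorem not_mem_OO {p : ℕ} [Fact p.Prime] {w : Sq p} (h0 : w 0 0 = 1)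
    (hev : ∀ i, 0 < i → Even i → w i = 0) (hodd : ∀ i, ¬ Even i → w i ≠ 0) : w ∉ OO p := by
  have h1 : ∀ i, st w (i + 1) = 1 := by
    intro i
    induction i with
    | zero =>
      rw [st_succ_even w (i := 0) ⟨0, rfl⟩, h0]
      show (0 : ZMod p) + 1 = 1
      rw [zero_add]
    | succ i ih =>
      by_cases he : Even (i + 1)
      · rw [st_succ_even w he, ih, hev (i + 1) (Nat.succ_pos i) he]
        show (1 : ZMod p) + 0 = 1
        rw [add_zero]
      · rw [st_succ_odd w he, if_neg (hodd _ he), ih]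
  rintro ⟨m, hm⟩
  have h2 := (hm (m + 1) (Nat.le_succ m)).2
  rw [h1 m] at h2
  exact one_ne_zero h2

theorem quarter_lt : (4 : ENNReal)⁻¹ < 1 - 4⁻¹ := by
  have h1 : (4 : ENNReal)⁻¹ = ((4⁻¹ : NNReal) : ENNReal) := by
    rw [ENNReal.coe_inv (by norm_num)]
    rfl
  rw [lt_tsub_iff_right, h1, ← ENNReal.coe_add, ← ENNReal.coe_one, ENNReal.coe_lt_coe]
  rw [← NNReal.coe_lt_coe]
  push_cast
  norm_num

theorem measure_pos_compl {p : ℕ} [Fact p.Prime] [MeasurableSpace (GG p)] [BorelSpace (GG p)]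
    (μ : Measure (GG p)) [μ.IsHaarMeasure] : μ {g : GG p | g.1 0 ∈ OO p}ᶜ ≠ 0 := by
  haveI : NeZero p := ⟨(Fact.out : p.Prime).ne_zero⟩
  obtain ⟨t, ht⟩ := exists_shift (p := p) 0 1
  have ht0 : t.1 0 = ee p := by
    rw [ht 0]
    funext j
    show (0 : Al p j) + _ = _
    rw [zero_add]
    rfl
  have hfin : μ (VV p 0 : Set (GG p)) ≠ ⊤ := by
    rw [VV_zero_eq]
    exact (isCompact_level 0).measure_lt_top.ne
  have hpos : μ (VV p 0 : Set (GG p)) ≠ 0 :=
    ((isOpen_VV p 0).measure_pos μ ⟨1, (VV p 0).one_mem⟩).ne'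
  -- the bad set
  set B : ℕ → Set (GG p) := fun j =>
    (VV p 0 : Set (GG p)) ∩ {g : GG p | g.1 (ee p) (2 * j + 1) = 0} with hB
  have hBle : ∀ j, μ (B j) ≤ μ (VV p 0 : Set (GG p)) * (4⁻¹ : ENNReal) ^ (j + 1) := by
    intro j
    have h1 := measure_letter μ (ee p) (2 * j + 1) (by
      rw [Nat.not_even_iff_odd]
      exact ⟨j, rfl⟩)
    have h2 : ((4 : ENNReal)) ^ (j + 1) * μ (B j) ≤ μ (VV p 0 : Set (GG p)) := by
      refine le_trans ?_ h1
      gcongr
      have h3 : 4 ^ (j + 1) ≤ p ^ (2 * j + 1 + 1) := by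
        have h4 : 2 ≤ p := (Fact.out : p.Prime).two_le
        calc 4 ^ (j + 1) = (2 ^ 2) ^ (j + 1) := by norm_num
          _ = 2 ^ (2 * (j + 1)) := by rw [pow_mul]
          _ ≤ p ^ (2 * (j + 1)) := Nat.pow_le_pow_left h4 _
          _ = p ^ (2 * j + 1 + 1) := by ring_nf
      exact_mod_cast h3
    rw [← ENNReal.inv_pow, ← div_eq_mul_inv]
    rw [ENNReal.le_div_iff_mul_le (Or.inl (by positivity)) (Or.inl (by
      exact ENNReal.pow_ne_top (by norm_num)))]
    rw [mul_comm]
    exact h2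
  have hsum : μ (⋃ j, B j) < μ (VV p 0 : Set (GG p)) := by
    calc μ (⋃ j, B j) ≤ ∑' j, μ (B j) := measure_iUnion_le _
      _ ≤ ∑' j, μ (VV p 0 : Set (GG p)) * (4⁻¹ : ENNReal) ^ (j + 1) := ENNReal.tsum_le_tsum hBle
      _ = μ (VV p 0 : Set (GG p)) * ∑' j : ℕ, (4⁻¹ : ENNReal) ^ (j + 1) := ENNReal.tsum_mul_left
      _ < μ (VV p 0 : Set (GG p)) * 1 := by
        rw [ENNReal.mul_lt_mul_iff_right hpos hfin]
        have h5 : ∑' j : ℕ, (4⁻¹ : ENNReal) ^ (j + 1) = 4⁻¹ * (1 - 4⁻¹)⁻¹ := by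
          simp only [pow_succ']
          rw [ENNReal.tsum_mul_left, ENNReal.tsum_geometric]
        rw [h5, ← div_eq_mul_inv]
        apply ENNReal.div_lt_of_lt_mul
        rw [one_mul]
        exact quarter_lt
      _ = μ (VV p 0 : Set (GG p)) := mul_one _
  have hne : μ ((VV p 0 : Set (GG p)) \ ⋃ j, B j) ≠ 0 := by
    intro h0
    have h1 : μ (VV p 0 : Set (GG p)) ≤ μ (⋃ j, B j) := by
      calc μ (VV p 0 : Set (GG p)) ≤ μ (((VV p 0 : Set (GG p)) \ ⋃ j, B j) ∪ ⋃ j, B j) := by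
            apply measure_mono
            intro g hg
            by_cases h : g ∈ ⋃ j, B j
            · exact Or.inr h
            · exact Or.inl ⟨hg, h⟩
        _ ≤ μ ((VV p 0 : Set (GG p)) \ ⋃ j, B j) + μ (⋃ j, B j) := measure_union_le _ _
        _ = μ (⋃ j, B j) := by rw [h0, zero_add]
    exact absurd hsum (not_lt.mpr h1)
  have hne2 := measure_mul_right_ne_zero (μ := μ) hne t⁻¹
  intro h0
  apply hne2
  apply measure_mono_null _ h0
  rintro g ⟨hg1, hg2⟩ hg3
  have hg3' : g.1 0 ∈ OO p := hg3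
  have hg0 : g.1 0 = (g * t⁻¹).1 (ee p) := by
    have h1 : (g * t⁻¹).1 (ee p) = g.1 (t.1.symm (ee p)) := rfl
    rw [h1, ← ht0, Equiv.symm_apply_apply]
  rw [hg0] at hg3'
  have hg1' : g * t⁻¹ ∈ VV p 0 := hg1
  refine not_mem_OO ?_ ?_ ?_ hg3'
  · rw [hg1' 0 (Or.inr ⟨0, rfl⟩)]
    show (Pi.single 0 1 : Sq p) 0 0 = 1
    rw [Pi.single_eq_same]
    rfl
  · intro i hi he
    rw [hg1' i (Or.inr he)]
    show (Pi.single 0 1 : Sq p) i = 0
    rw [Pi.single_eq_of_ne (by omega)]
  · intro i hi h2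
    apply hg2
    obtain ⟨j, rfl⟩ := Nat.not_even_iff_odd.mp hi
    exact Set.mem_iUnion.mpr ⟨j, hg1, h2⟩

theorem not_nul_top {p : ℕ} [Fact p.Prime] [MeasurableSpace (GG p)] [BorelSpace (GG p)] :
    ¬ Nul (⊤ : Subgroup (GG p)) ((KK p : Set (GG p)) * (MM p : Set (GG p)))ᶜ := by
  haveI : NeZero p := ⟨(Fact.out : p.Prime).ne_zero⟩
  rw [KK_mul_MM]
  rintro ⟨μ, hμ, h0⟩
  haveI := hμ
  let e : (⊤ : Subgroup (GG p)) ≃* GG p := Subgroup.topEquiv
  have he : Continuous e := continuous_subtype_val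
  have he' : Continuous e.symm := by
    refine Continuous.subtype_mk continuous_id _
  haveI : (μ.map e).IsHaarMeasure := e.isHaarMeasure_map μ he he'
  apply measure_pos_compl (μ.map e)
  have hopen : IsClosed ({g : GG p | g.1 0 ∈ OO p}ᶜ) := (isOpen_orbit 0).isClosed_compl
  rw [Measure.map_apply he.measurable hopen.measurableSet]
  exact h0

end Pool.Agent.MP842576
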