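import Mathlib
import Pool.Agent.Lib.MP_842576_h7.Defs
import Pool.Agent.Lib.MP_842576_h7.ProdSub
import Pool.Agent.Lib.MP_842576_h7.Haar1
import Pool.Agent.Lib.MP_842576_h7.Haar2
import Pool.Agent.Lib.MP_842576_h7.Box

set_option autoImplicit false

namespace Pool.Agent.MP842576

open scoped Pointwise

theorem mem_conjInv {G : Type} [Group G] {g x : G} {H : Subgroup G} :
    x ∈ conjInv g H ↔ g * x * g⁻¹ ∈ H := by
  constructor
  · rintro ⟨y, hy, rfl⟩
    have : g * (MulAut.conj g⁻¹).toMonoidHom y * g⁻¹ = y := by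
      simp [MulAut.conj_apply, mul_assoc]
    rw [this]
    exact hy
  · intro h
    refine ⟨g * x * g⁻¹, h, ?_⟩
    simp [MulAut.conj_apply, mul_assoc]

theorem conjInv_conjInv {G : Type} [Group G] (g : G) (H : Subgroup G) :
    conjInv g⁻¹ (conjInv g H) = H := by
  ext x
  rw [mem_conjInv, mem_conjInv]
  have : g * (g⁻¹ * x * g⁻¹⁻¹) * g⁻¹ = x := by group
  rw [this]

theorem comp_conjInv {Γ : ℕ → Type} [∀ n, Group (Γ n)] (g : ∀ n, Γ n)
    (H : Subgroup (∀ n, Γ n)) (n : ℕ) : comp (conjInv g H) n = conjInv (g n) (comp H n) := by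
  ext x
  rw [mem_comp, mem_conjInv, mem_conjInv, mem_comp]
  have : g * (Pi.mulSingle n x : ∀ n, Γ n) * g⁻¹ = Pi.mulSingle n (g n * x * (g n)⁻¹) := by
    funext i
    by_cases hi : i = n
    · subst hi
      simp
    · simp [hi]
  rw [this]

theorem isClosed_conjInv {G : Type} [Group G] [TopologicalSpace G] [IsTopologicalGroup G] (g : G)
    {H : Subgroup G} (hH : IsClosed (H : Set G)) : IsClosed (conjInv g H : Set G) := by
  have h1 : (conjInv g H : Set G) = (fun x => g * x * g⁻¹) ⁻¹' (H : Set G) := by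
    ext x
    exact mem_conjInv
  rw [h1]
  exact hH.preimage ((continuous_const.mul continuous_id).mul continuous_const)

section Scheme

variable {Γ : ℕ → Type} [∀ n, Group (Γ n)] [∀ n, TopologicalSpace (Γ n)]
  [∀ n, MeasurableSpace (Γ n)]
  [∀ n, IsTopologicalGroup (Γ n)] [∀ n, T2Space (Γ n)]
  [∀ n, LocallyCompactSpace (Γ n)] [∀ n, SecondCountableTopology (Γ n)] [∀ n, BorelSpace (Γ n)]

theorem small_mul_left {H : Subgroup (∀ n, Γ n)} (hH : IsClosed (H : Set (∀ n, Γ n)))
    {h : ∀ n, Γ n} (hh : ∀ n, h n ∈ comp H n) {X : ∀ n, Set (Γ n)} (hX : Small H X) :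
    Small H (fun n => (fun x => h n * x) '' X n) := by
  have hcl := fun n => comp_closed hH n
  rcases hX with ⟨n, hn⟩ | hinf
  · exact Or.inl ⟨n, (nul_mul_left_iff (hcl n) (hh n)).mpr hn⟩
  · refine Or.inr (hinf.mono ?_)
    intro n hn hn'
    apply hn
    rw [← Set.image_compl_eq (Group.mulLeft_bijective (h n)), nul_mul_left_iff (hcl n) (hh n)] at hn'
    exact hn'

theorem small_mul_right {H : Subgroup (∀ n, Γ n)} (hH : IsClosed (H : Set (∀ n, Γ n)))
    {h : ∀ n, Γ n} (hh : ∀ n, h n ∈ comp H n) {X : ∀ n, Set (Γ n)} (hX : Small H X) :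
    Small H (fun n => (fun x => x * h n) '' X n) := by
  have hcl := fun n => comp_closed hH n
  rcases hX with ⟨n, hn⟩ | hinf
  · exact Or.inl ⟨n, (nul_mul_right_iff (hcl n) (hh n)).mpr hn⟩
  · refine Or.inr (hinf.mono ?_)
    intro n hn hn'
    apply hn
    rw [← Set.image_compl_eq (Group.mulRight_bijective (h n)), nul_mul_right_iff (hcl n) (hh n)]
      at hn'
    exact hn'

theorem conj_bijective {G : Type} [Group G] (g : G) :
    Function.Bijective (fun x : G => g⁻¹ * x * g) := by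
  constructor
  · intro x y hxy
    have h : g⁻¹ * x * g = g⁻¹ * y * g := hxy
    exact mul_left_cancel (mul_right_cancel h)
  · intro y
    exact ⟨g * y * g⁻¹, by group⟩

theorem small_conj {H : Subgroup (∀ n, Γ n)} (hH : IsClosed (H : Set (∀ n, Γ n)))
    (g : ∀ n, Γ n) {X : ∀ n, Set (Γ n)} (hX : Small H X) :
    Small (conjInv g H) (fun n => (fun x => (g n)⁻¹ * x * g n) '' X n) := by
  have hcl := fun n => comp_closed hH n
  rcases hX with ⟨n, hn⟩ | hinf
  · refine Or.inl ⟨n, ?_⟩
    rw [comp_conjInv]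
    exact (nul_conj_iff (hcl n) (g n)).mpr hn
  · refine Or.inr (hinf.mono ?_)
    intro n hn hn'
    apply hn
    rw [comp_conjInv, ← Set.image_compl_eq (conj_bijective (g n)), nul_conj_iff (hcl n) (g n)]
      at hn'
    exact hn'

theorem II_image {H H' : Subgroup (∀ n, Γ n)} (F : ∀ n, Γ n → Γ n)
    (hFH : ∀ x ∈ H, (fun n => F n (x n)) ∈ H')
    (hF : ∀ X : ∀ n, Set (Γ n), Small H X → Small H' (fun n => F n '' X n))
    {S : Set (∀ n, Γ n)} (hS : S ∈ II H) :
    (fun (x : ∀ n, Γ n) n => F n (x n)) '' S ∈ II H' := by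
  obtain ⟨hSH, X, hX, hSX⟩ := hS
  refine ⟨?_, fun j n => F n '' X j n, fun j => hF _ (hX j), ?_⟩
  · rintro _ ⟨x, hx, rfl⟩
    exact hFH x (hSH hx)
  · rintro _ ⟨x, hx, rfl⟩
    obtain ⟨j, hj⟩ := Set.mem_iUnion.mp (hSX hx)
    exact Set.mem_iUnion.mpr ⟨j, fun n _ => ⟨x n, hj n (Set.mem_univ n), rfl⟩⟩

theorem II_conj {H : Subgroup (∀ n, Γ n)} (hH : IsClosed (H : Set (∀ n, Γ n)))
    (g : ∀ n, Γ n) {S : Set (∀ n, Γ n)} (hS : S ∈ II H) :
    (fun x => g⁻¹ * x * g) '' S ∈ II (conjInv g H) := by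
  refine II_image (H := H) (H' := conjInv g H) (fun n x => (g n)⁻¹ * x * g n) ?_
    (fun X hX => small_conj hH g hX) hS
  intro x hx
  rw [mem_conjInv]
  have : g * (fun n => (g n)⁻¹ * x n * g n) * g⁻¹ = x := by
    funext n
    simp [mul_assoc]
  rw [this]
  exact hx

variable (P : ℕ → ℕ) (hP : ∀ n, (P n).Prime) (hinj : Function.Injective P)
    (hpow : ∀ n (x : Γ n), ∀ U ∈ nhds (1 : Γ n), ∃ k : ℕ, ∀ a : ℤ, (x ^ (P n ^ k)) ^ a ∈ U)

include hP hinj hpow

theorem coe_eq_pi {H : Subgroup (∀ n, Γ n)} (hH : IsClosed (H : Set (∀ n, Γ n))) :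
    (H : Set (∀ n, Γ n)) = Set.pi Set.univ (fun n => (comp H n : Set (Γ n))) := by
  ext x
  constructor
  · intro hx n _
    exact comp_mem P hP hinj hpow hH hx n
  · intro hx
    exact mem_of_forall_comp hH fun n => hx n (Set.mem_univ n)

theorem mul_eq_pi {H K : Subgroup (∀ n, Γ n)} (hH : IsClosed (H : Set (∀ n, Γ n)))
    (hK : IsClosed (K : Set (∀ n, Γ n))) :
    (H : Set (∀ n, Γ n)) * (K : Set (∀ n, Γ n)) =
      Set.pi Set.univ (fun n => (comp H n : Set (Γ n)) * (comp K n : Set (Γ n))) := by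
  ext x
  constructor
  · rintro ⟨a, ha, b, hb, rfl⟩ n _
    exact ⟨a n, comp_mem P hP hinj hpow hH ha n, b n, comp_mem P hP hinj hpow hK hb n, rfl⟩
  · intro hx
    have h1 : ∀ n, ∃ a b : Γ n, a ∈ comp H n ∧ b ∈ comp K n ∧ a * b = x n := by
      intro n
      obtain ⟨a, ha, b, hb, h⟩ := hx n (Set.mem_univ n)
      exact ⟨a, b, ha, hb, h⟩
    choose a b ha hb hab using h1
    exact ⟨a, mem_of_forall_comp hH ha, b, mem_of_forall_comp hK hb, funext hab⟩

theorem mul_mem_II_iff {H K G : Subgroup (∀ n, Γ n)} (hH : IsClosed (H : Set (∀ n, Γ n)))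
    (hK : IsClosed (K : Set (∀ n, Γ n))) (hG : IsClosed (G : Set (∀ n, Γ n))) (hHG : H ≤ G)
    (hKG : K ≤ G) :
    (H : Set (∀ n, Γ n)) * (K : Set (∀ n, Γ n)) ∈ II G ↔
      Small G (fun n => (comp H n : Set (Γ n)) * (comp K n : Set (Γ n))) := by
  rw [mul_eq_pi P hP hinj hpow hH hK]
  apply pi_mem_II_iff hG
  rintro n _ ⟨a, ha, b, hb, rfl⟩
  exact (comp G n).mul_mem (comp_mono hHG n ha) (comp_mono hKG n hb)

theorem self_notMem_II {H : Subgroup (∀ n, Γ n)} (hH : IsClosed (H : Set (∀ n, Γ n))) :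
    (H : Set (∀ n, Γ n)) ∉ II H := by
  rw [coe_eq_pi P hP hinj hpow hH, pi_mem_II_iff hH (fun n => subset_rfl)]
  rintro (⟨n, hn⟩ | hinf)
  · exact not_nul_self hn
  · apply hinf
    have : {n | ¬ Nul (comp H n) (comp H n : Set (Γ n))ᶜ} = ∅ := by
      rw [Set.eq_empty_iff_forall_notMem]
      intro n hn
      apply hn
      apply (nul_empty (comp_closed hH n)).mono
      rintro x ⟨hx, hx'⟩
      exact absurd hx' hx
    rw [this]
    exact Set.finite_empty

theorem stronglyAdmissible_II :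
    StronglyAdmissible (fun H : Subgroup (∀ n, Γ n) => II H) where
  subset := fun H _ S hS => II_sub hS
  empty := by
    intro H hH
    refine ⟨Set.empty_subset _, fun _ _ => ∅, fun _ => Or.inl ⟨0, nul_empty (comp_closed hH 0)⟩,
      Set.empty_subset _⟩
  mono := fun H _ S hS T hT => II_mono hS hT
  union := by
    intro H hH S hS T hT
    have h1 := II_iUnion (H := H) (S := fun n => if n = 0 then S else T) (fun n => by
      show (if n = 0 then S else T) ∈ II H
      split_ifs
      · exact hS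
      · exact hT)
    refine II_mono h1 ?_
    rintro x (hx | hx)
    · exact Set.mem_iUnion.mpr ⟨0, by simpa using hx⟩
    · exact Set.mem_iUnion.mpr ⟨1, by simpa using hx⟩
  sigma := fun H _ S hS => II_iUnion hS
  left := by
    intro H hH h hh S hS
    refine II_image (H := H) (H' := H) (fun n x => h n * x) ?_
      (fun X hX => small_mul_left hH (fun n => comp_mem P hP hinj hpow hH hh n) hX) hS
    intro x hx
    exact H.mul_mem hh hx
  right := by
    intro H hH h hh S hS
    refine II_image (H := H) (H' := H) (fun n x => x * h n) ?_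
      (fun X hX => small_mul_right hH (fun n => comp_mem P hP hinj hpow hH hh n) hX) hS
    intro x hx
    exact H.mul_mem hx hh
  conj := by
    intro H hH g
    ext T
    constructor
    · rintro ⟨S, hS, rfl⟩
      exact II_conj hH g hS
    · intro hT
      have h1 := II_conj (isClosed_conjInv g hH) g⁻¹ hT
      rw [conjInv_conjInv] at h1
      refine ⟨_, h1, ?_⟩
      show (fun x => g⁻¹ * x * g) '' ((fun x => g⁻¹⁻¹ * x * g⁻¹) '' T) = T
      rw [Set.image_image]
      have h2 : (fun x : ∀ n, Γ n => g⁻¹ * (g⁻¹⁻¹ * x * g⁻¹) * g) = id := by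
        funext x
        show g⁻¹ * (g⁻¹⁻¹ * x * g⁻¹) * g = x
        group
      rw [h2, Set.image_id]
  trans := by
    intro K₁ K₂ K₃ H h1 h2 h3 hH h32 h21 hH1
    have hHK : IsClosed ((H ⊓ K₂ : Subgroup (∀ n, Γ n)) : Set (∀ n, Γ n)) := by
      rw [Subgroup.coe_inf]
      exact hH.inter h2
    rw [mul_mem_II_iff P hP hinj hpow hHK h3 h2 inf_le_right h32,
      mul_mem_II_iff P hP hinj hpow hH h2 h1 hH1 h21,
      mul_mem_II_iff P hP hinj hpow hH h3 h1 hH1 (h32.trans h21)]
    rw [← not_or, not_iff_not]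
    have hcl1 := fun n => comp_closed h1 n
    have hcl2 := fun n => comp_closed h2 n
    have hcl3 := fun n => comp_closed h3 n
    have hclH := fun n => comp_closed hH n
    have hA : ∀ n, Nul (comp K₁ n) ((comp H n : Set (Γ n)) * (comp K₃ n : Set (Γ n))) ↔
        Nul (comp K₂ n) ((comp (H ⊓ K₂) n : Set (Γ n)) * (comp K₃ n : Set (Γ n))) ∨
        Nul (comp K₁ n) ((comp H n : Set (Γ n)) * (comp K₂ n : Set (Γ n))) := fun n =>
      nul_trans (hcl1 n) (hcl2 n) (hcl3 n) (hclH n) (comp_mono h32 n) (comp_mono h21 n)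
        (comp_mono hH1 n)
    have hB : ∀ n, Nul (comp K₁ n) ((comp H n : Set (Γ n)) * (comp K₃ n : Set (Γ n)))ᶜ ↔
        Nul (comp K₂ n) ((comp (H ⊓ K₂) n : Set (Γ n)) * (comp K₃ n : Set (Γ n)))ᶜ ∧
        Nul (comp K₁ n) ((comp H n : Set (Γ n)) * (comp K₂ n : Set (Γ n)))ᶜ := fun n =>
      conul_trans (hcl1 n) (hcl2 n) (hcl3 n) (hclH n) (comp_mono h32 n) (comp_mono h21 n)
        (comp_mono hH1 n)
    have hC : {n | ¬ Nul (comp K₁ n) ((comp H n : Set (Γ n)) * (comp K₃ n : Set (Γ n)))ᶜ} =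
        {n | ¬ Nul (comp K₂ n) ((comp (H ⊓ K₂) n : Set (Γ n)) * (comp K₃ n : Set (Γ n)))ᶜ} ∪
        {n | ¬ Nul (comp K₁ n) ((comp H n : Set (Γ n)) * (comp K₂ n : Set (Γ n)))ᶜ} := by
      ext n
      show ¬ _ ↔ (¬ _ ∨ ¬ _)
      rw [hB n, not_and_or]
    unfold Small
    rw [hC, Set.infinite_union]
    simp only [hA, exists_or]
    tauto
  dichotomy := by
    intro K H hK hH hKH
    have hclK := fun n => comp_closed hK n
    have hclH := fun n => comp_closed hH n
    constructor
    · intro hmem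
      rw [← not_countable_iff]
      intro hc
      apply self_notMem_II P hP hinj hpow hH
      haveI : Countable (H ⧸ K.subgroupOf H) := hc
      haveI : Nonempty (H ⧸ K.subgroupOf H) := ⟨QuotientGroup.mk 1⟩
      obtain ⟨q, hq⟩ := exists_surjective_nat (H ⧸ K.subgroupOf H)
      have h1 : ∀ n, (fun x => ((q n).out : ∀ n, Γ n) * x) '' (K : Set (∀ n, Γ n)) ∈ II H := by
        intro n
        refine II_image (H := H) (H' := H) (fun i x => ((q n).out : ∀ n, Γ n) i * x) ?_
          (fun X hX => small_mul_left hH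
            (fun i => comp_mem P hP hinj hpow hH ((q n).out).2 i) hX) hmem
        intro x hx
        exact H.mul_mem ((q n).out).2 hx
      refine II_mono (II_iUnion h1) ?_
      intro x hx
      obtain ⟨n, hn⟩ := hq (QuotientGroup.mk ⟨x, hx⟩)
      refine Set.mem_iUnion.mpr ⟨n, ((q n).out : ∀ n, Γ n)⁻¹ * x, ?_, by simp⟩
      have h2 : (QuotientGroup.mk ((q n).out) : H ⧸ K.subgroupOf H) = QuotientGroup.mk ⟨x, hx⟩ := by
        rw [← hn]
        exact Quotient.out_eq _
      rw [QuotientGroup.eq, Subgroup.mem_subgroupOf] at h2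
      exact h2
    · intro hu
      rw [coe_eq_pi P hP hinj hpow hK, pi_mem_II_iff hH (fun n => comp_mono hKH n)]
      by_contra hsm
      have h1 : ∀ n, ¬ Nul (comp H n) (comp K n : Set (Γ n)) := fun n h => hsm (Or.inl ⟨n, h⟩)
      have h2 : {n | ¬ Nul (comp H n) (comp K n : Set (Γ n))ᶜ}.Finite := by
        by_contra h
        exact hsm (Or.inr h)
      obtain ⟨N, hN⟩ : ∃ N, ∀ n, N ≤ n → Nul (comp H n) (comp K n : Set (Γ n))ᶜ := by
        have h3 := h2.eventually_cofinite_notMem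
        rw [Nat.cofinite_eq_atTop, Filter.eventually_atTop] at h3
        obtain ⟨N, hN⟩ := h3
        refine ⟨N, fun n hn => ?_⟩
        by_contra h
        exact hN n hn h
      have hcount : ∀ n, Countable (comp H n ⧸ (comp K n).subgroupOf (comp H n)) := by
        intro n
        have h4 := h1 n
        rw [nul_subgroup_iff (hclK n) (hclH n) (comp_mono hKH n), not_uncountable_iff] at h4
        exact h4
      rw [← not_countable_iff] at hu
      apply hu
      let F : (H ⧸ K.subgroupOf H) → ∀ n : Fin N,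
          (comp H n ⧸ (comp K n).subgroupOf (comp H n)) := fun q n =>
        QuotientGroup.mk ⟨(q.out : ∀ n, Γ n) n, comp_mem P hP hinj hpow hH q.out.2 n⟩
      have hF : Function.Injective F := by
        intro q q' hqq
        have h5 : (QuotientGroup.mk q.out : H ⧸ K.subgroupOf H) = QuotientGroup.mk q'.out := by
          rw [QuotientGroup.eq, Subgroup.mem_subgroupOf]
          show ((q.out : ∀ n, Γ n)⁻¹ * (q'.out : ∀ n, Γ n)) ∈ K
          apply mem_of_forall_comp hK
          intro n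
          by_cases hn : n < N
          · have h6 := congrFun hqq ⟨n, hn⟩
            have h7 : (QuotientGroup.mk ⟨(q.out : ∀ n, Γ n) n, _⟩ :
                comp H n ⧸ (comp K n).subgroupOf (comp H n)) =
                QuotientGroup.mk ⟨(q'.out : ∀ n, Γ n) n, _⟩ := h6
            rw [QuotientGroup.eq, Subgroup.mem_subgroupOf] at h7
            exact h7
          · push Not at hn
            apply le_of_conul (hclH n) (comp_mono hKH n) (hN n hn)
            exact comp_mem P hP hinj hpow hH (H.mul_mem (H.inv_mem q.out.2) q'.out.2) n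
        rw [← Quotient.out_eq q, ← Quotient.out_eq q']
        exact h5
      exact hF.countable

end Scheme

end Pool.Agent.MP842576
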